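import Mathlib

set_option autoImplicit false

namespace Pool.Agent.BallZero

open Finset

/-- distance of natural numbers -/
def dd (i j : ℕ) : ℕ := (i - j) + (j - i)

lemma dd_cast (i j : ℕ) : ((dd i j : ℕ) : ℝ) = |(i : ℝ) - j| := by
  unfold dd
  rcases le_total i j with h | h
  · have h' : (i : ℝ) ≤ j := by exact_mod_cast h
    rw [Nat.sub_eq_zero_of_le h, abs_of_nonpos (by linarith)]
    push_cast [h]; ring
  · have h' : (j : ℝ) ≤ i := by exact_mod_cast h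
    rw [Nat.sub_eq_zero_of_le h, abs_of_nonneg (by linarith)]
    push_cast [h]; ring

lemma geom_part (r : ℝ) (hr0 : 0 ≤ r) (hr1 : r ≤ 1 / 2) (k : ℕ) :
    ∑ i ∈ range k, r ^ (i + 1) ≤ 2 * r := by
  have h1 : ∑ i ∈ range k, r ^ i ≤ 2 := by
    have h2 : ∑ i ∈ range k, r ^ i ≤ ∑' i : ℕ, r ^ i :=
      (summable_geometric_of_lt_one hr0 (by linarith)).sum_le_tsum _ (fun i _ => pow_nonneg hr0 i)
    rw [tsum_geometric_of_lt_one hr0 (by linarith)] at h2
    refine h2.trans ?_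
    rw [inv_le_comm₀ (by linarith) (by norm_num)]
    linarith
  calc ∑ i ∈ range k, r ^ (i + 1) = (∑ i ∈ range k, r ^ i) * r := by
        rw [Finset.sum_mul]; exact Finset.sum_congr rfl (fun i _ => pow_succ r i)
    _ ≤ 2 * r := by nlinarith

lemma sum_dist_le (r : ℝ) (hr0 : 0 ≤ r) (hr1 : r ≤ 1 / 2) (n j0 : ℕ) :
    ∑ i ∈ (range n).erase j0, r ^ (dd i j0) ≤ 4 * r := by
  have hsub : (range n).erase j0 ⊆ (range j0) ∪ (Ico (j0 + 1) (j0 + 1 + n)) := by
    intro i hi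
    rw [mem_erase, mem_range] at hi
    rw [mem_union, mem_range, mem_Ico]
    omega
  have hnn : ∀ i ∈ (range j0) ∪ (Ico (j0 + 1) (j0 + 1 + n)), i ∉ (range n).erase j0 →
      0 ≤ r ^ (dd i j0) := fun i _ _ => pow_nonneg hr0 _
  have h1 := Finset.sum_le_sum_of_subset_of_nonneg hsub hnn
  refine h1.trans ?_
  have hdisj : Disjoint (range j0) (Ico (j0 + 1) (j0 + 1 + n)) := by
    rw [Finset.disjoint_left]
    intro i hi hi'
    rw [mem_range] at hi
    rw [mem_Ico] at hi'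
    omega
  rw [Finset.sum_union hdisj]
  have h2 : ∑ i ∈ range j0, r ^ (dd i j0) = ∑ i ∈ range j0, r ^ (i + 1) := by
    rw [← Finset.sum_range_reflect (fun i => r ^ (i + 1)) j0]
    apply Finset.sum_congr rfl
    intro i hi
    rw [mem_range] at hi
    congr 1
    unfold dd; omega
  have h3 : ∑ i ∈ Ico (j0 + 1) (j0 + 1 + n), r ^ (dd i j0) = ∑ i ∈ range n, r ^ (i + 1) := by
    rw [Finset.sum_Ico_eq_sum_range]
    have : j0 + 1 + n - (j0 + 1) = n := by omega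
    rw [this]
    apply Finset.sum_congr rfl
    intro i _
    congr 1
    unfold dd; omega
  rw [h2, h3]
  have h4 := geom_part r hr0 hr1 j0
  have h5 := geom_part r hr0 hr1 n
  linarith

lemma exp_neg_le_half (κ : ℝ) (hκ : 1 ≤ κ) : Real.exp (-κ) ≤ 1 / 2 := by
  have h1 : Real.exp (-κ) ≤ Real.exp (-1) := Real.exp_le_exp.mpr (by linarith)
  have h2 : (2 : ℝ) ≤ Real.exp 1 := by
    have := Real.add_one_le_exp (1 : ℝ); linarith
  have h3 : Real.exp (-1) ≤ 1 / 2 := by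
    rw [Real.exp_neg, inv_eq_one_div]
    exact one_div_le_one_div_of_le (by norm_num) h2
  linarith

/-- Gaussian tails away from the index `j0`. -/
lemma gauss_sum_le (a c κ : ℝ) (hc : 0 < c) (ha : 0 < a) (n j0 : ℕ) (e : ℕ → ℝ)
    (hκ : κ = a * c ^ 2) (hκ1 : 1 ≤ κ)
    (he : ∀ i, i ≠ j0 → c * |(i : ℝ) - j0| ≤ |e i|) :
    ∑ i ∈ (range n).erase j0, Real.exp (-(a * (e i) ^ 2)) ≤ 4 * Real.exp (-κ) := by
  have h := sum_dist_le (Real.exp (-κ)) (Real.exp_pos _).le (exp_neg_le_half κ hκ1) n j0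
  refine le_trans (Finset.sum_le_sum ?_) h
  intro i hi
  rw [mem_erase] at hi
  rw [← Real.exp_nat_mul]
  apply Real.exp_le_exp.mpr
  rw [dd_cast]
  have h1 : 1 ≤ |(i : ℝ) - j0| := by
    have h2 : ((i : ℤ) - (j0 : ℤ)) ≠ 0 := by
      intro h3; apply hi.1; omega
    have h3 : (1 : ℤ) ≤ |(i : ℤ) - (j0 : ℤ)| := Int.one_le_abs h2
    have h4 : ((1 : ℤ) : ℝ) ≤ ((|(i : ℤ) - (j0 : ℤ)| : ℤ) : ℝ) := by exact_mod_cast h3
    push_cast at h4
    exact h4
  set D := |(i : ℝ) - j0| with hD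
  have h5 := he i hi.1
  have h6 : (c * D) ^ 2 ≤ (e i) ^ 2 := by
    rw [← sq_abs (e i)]
    exact pow_le_pow_left₀ (by positivity) h5 2
  have h7 : κ * D ≤ a * (e i) ^ 2 := by
    calc κ * D ≤ κ * D * D := by
          have : 0 ≤ κ * D := by positivity
          nlinarith
      _ = a * (c * D) ^ 2 := by rw [hκ]; ring
      _ ≤ a * (e i) ^ 2 := mul_le_mul_of_nonneg_left h6 ha.le
  linarith [h7, mul_comm D κ]

end Pool.Agent.BallZero
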