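import Mathlib

set_option autoImplicit false

namespace Pool.Agent.BallZero

open Finset

/-- The normalised weight `(M x / i)^i (M y / (M-i))^(M-i)`. -/
noncomputable def T (M i : ℕ) (x y : ℝ) : ℝ :=
  ((M : ℝ) * x / i) ^ i * ((M : ℝ) * y / ((M - i : ℕ) : ℝ)) ^ (M - i)

lemma pow_div_le (a : ℝ) (ha : 0 ≤ a) (n : ℕ) :
    (a / n) ^ n ≤ Real.exp (2 * (Real.sqrt n * Real.sqrt a) - 2 * n) := by
  rcases Nat.eq_zero_or_pos n with h | h
  · subst h; simp
  have hn : (0 : ℝ) < n := by exact_mod_cast h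
  have hs : 0 < Real.sqrt n := Real.sqrt_pos.mpr hn
  set u := Real.sqrt a / Real.sqrt n with hu
  have hu0 : 0 ≤ u := by positivity
  have h1 : a / n = u ^ 2 := by
    rw [hu, div_pow, Real.sq_sqrt ha, Real.sq_sqrt hn.le]
  have h2 : u ≤ Real.exp (u - 1) := by
    have := Real.add_one_le_exp (u - 1); linarith
  have h3 : (a / n) ^ n ≤ (Real.exp (u - 1)) ^ (2 * n) := by
    rw [h1, ← pow_mul]
    exact pow_le_pow_left₀ hu0 h2 _
  refine h3.trans (le_of_eq ?_)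
  rw [← Real.exp_nat_mul]
  congr 1
  push_cast
  have h4 : (n : ℝ) * u = Real.sqrt n * Real.sqrt a := by
    rw [hu]
    have : (n : ℝ) = Real.sqrt n * Real.sqrt n := (Real.mul_self_sqrt hn.le).symm
    calc (n : ℝ) * (Real.sqrt a / Real.sqrt n)
        = (Real.sqrt n * Real.sqrt n) * (Real.sqrt a / Real.sqrt n) := by rw [← this]
      _ = Real.sqrt n * Real.sqrt a := by field_simp
  calc 2 * (n : ℝ) * (u - 1) = 2 * (n * u) - 2 * n := by ring
    _ = _ := by rw [h4]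

lemma pow_div_ge (a : ℝ) (ha : 0 < a) (n : ℕ) :
    Real.exp (n - (n : ℝ) ^ 2 / a) ≤ (a / n) ^ n := by
  rcases Nat.eq_zero_or_pos n with h | h
  · subst h; simp
  have hn : (0 : ℝ) < n := by exact_mod_cast h
  have h1 : (n : ℝ) / a ≤ Real.exp (n / a - 1) := by
    have := Real.add_one_le_exp ((n : ℝ) / a - 1); linarith
  have h2 : Real.exp (-((n : ℝ) / a - 1)) ≤ a / n := by
    rw [Real.exp_neg]
    have h3 : 0 < (n : ℝ) / a := by positivity
    calc (Real.exp (n / a - 1))⁻¹ ≤ ((n : ℝ) / a)⁻¹ := inv_anti₀ h3 h1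
      _ = a / n := by rw [inv_div]
  calc Real.exp (n - (n : ℝ) ^ 2 / a) = Real.exp (-((n : ℝ) / a - 1)) ^ n := by
        rw [← Real.exp_nat_mul]; congr 1; field_simp; ring
    _ ≤ (a / n) ^ n := pow_le_pow_left₀ (Real.exp_pos _).le h2 _

lemma T_nonneg (M i : ℕ) (x y : ℝ) (hx : 0 ≤ x) (hy : 0 ≤ y) : 0 ≤ T M i x y := by
  unfold T; positivity

lemma T_le (M i : ℕ) (hM : 0 < M) (hi : i ≤ M) (x y : ℝ) (hx : 0 ≤ x) (hy : 0 ≤ y)
    (hxy : x + y ≤ 1) :
    T M i x y ≤ Real.exp (-((i : ℝ) - M * x) ^ 2 / M) := by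
  have hM' : (0 : ℝ) < M := by exact_mod_cast hM
  have hi' : (i : ℝ) ≤ M := by exact_mod_cast hi
  have hc : ((M - i : ℕ) : ℝ) = (M : ℝ) - i := by push_cast [hi]; ring
  have h1 := pow_div_le ((M : ℝ) * x) (by positivity) i
  have h2 := pow_div_le ((M : ℝ) * y) (by positivity) (M - i)
  have h3 : T M i x y ≤ Real.exp (2 * (Real.sqrt i * Real.sqrt ((M : ℝ) * x)) - 2 * i) *
      Real.exp (2 * (Real.sqrt ((M - i : ℕ) : ℝ) * Real.sqrt ((M : ℝ) * y))
        - 2 * ((M - i : ℕ) : ℝ)) := by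
    unfold T
    exact mul_le_mul h1 h2 (by positivity) (Real.exp_pos _).le
  refine h3.trans ?_
  rw [← Real.exp_add]
  apply Real.exp_le_exp.mpr
  rw [hc]
  set u : ℝ := (M : ℝ) * x with hu
  have hu0 : 0 ≤ u := by positivity
  have huM : u ≤ M := by
    rw [hu]; nlinarith
  have hy' : (M : ℝ) * y ≤ M - u := by rw [hu]; nlinarith
  have hsq : Real.sqrt ((M : ℝ) * y) ≤ Real.sqrt (M - u) := Real.sqrt_le_sqrt hy'
  set a := Real.sqrt (i : ℝ) with ha
  set b := Real.sqrt ((M : ℝ) - i) with hb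
  set c := Real.sqrt u with hcc
  set d := Real.sqrt (M - u) with hd
  have ha2 : a ^ 2 = i := Real.sq_sqrt (by positivity)
  have hb2 : b ^ 2 = (M : ℝ) - i := Real.sq_sqrt (by linarith)
  have hc2 : c ^ 2 = u := Real.sq_sqrt hu0
  have hd2 : d ^ 2 = M - u := Real.sq_sqrt (by linarith)
  have ha0 : 0 ≤ a := Real.sqrt_nonneg _
  have hb0 : 0 ≤ b := Real.sqrt_nonneg _
  have hc0 : 0 ≤ c := Real.sqrt_nonneg _
  have hd0 : 0 ≤ d := Real.sqrt_nonneg _
  have hbs : b * Real.sqrt ((M : ℝ) * y) ≤ b * d := mul_le_mul_of_nonneg_left hsq hb0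
  -- s = a c + b d
  have hM2 : (M : ℝ) ^ 2 = (a * c + b * d) ^ 2 + (a * d - b * c) ^ 2 := by
    have : (M : ℝ) ^ 2 = (a ^ 2 + b ^ 2) * (c ^ 2 + d ^ 2) := by
      rw [ha2, hb2, hc2, hd2]; ring
    rw [this]; ring
  have hM2' : (a * d + b * c) ^ 2 ≤ (M : ℝ) ^ 2 := by
    have : (M : ℝ) ^ 2 = (a ^ 2 + b ^ 2) * (c ^ 2 + d ^ 2) := by
      rw [ha2, hb2, hc2, hd2]; ring
    have h6 : (a ^ 2 + b ^ 2) * (c ^ 2 + d ^ 2) = (a * d + b * c) ^ 2 + (a * c - b * d) ^ 2 := by ring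
    rw [this, h6]; linarith [sq_nonneg (a * c - b * d)]
  have hprod : (M : ℝ) * (i - u) = (a * d - b * c) * (a * d + b * c) := by
    have : (a * d - b * c) * (a * d + b * c) = a ^ 2 * d ^ 2 - b ^ 2 * c ^ 2 := by ring
    rw [this, ha2, hb2, hc2, hd2]; ring
  have hkey : ((i : ℝ) - u) ^ 2 ≤ (a * d - b * c) ^ 2 := by
    have h5 : (M : ℝ) ^ 2 * ((i : ℝ) - u) ^ 2 ≤ (M : ℝ) ^ 2 * (a * d - b * c) ^ 2 := by
      calc (M : ℝ) ^ 2 * ((i : ℝ) - u) ^ 2 = ((M : ℝ) * (i - u)) ^ 2 := by ring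
        _ = (a * d - b * c) ^ 2 * (a * d + b * c) ^ 2 := by rw [hprod]; ring
        _ ≤ (a * d - b * c) ^ 2 * (M : ℝ) ^ 2 :=
            mul_le_mul_of_nonneg_left hM2' (sq_nonneg _)
        _ = _ := by ring
    exact le_of_mul_le_mul_left h5 (by positivity)
  have hs0 : 0 ≤ a * c + b * d := by positivity
  have hsM : a * c + b * d ≤ M := by
    apply le_of_sq_le_sq _ hM'.le
    rw [hM2]; linarith [sq_nonneg (a * d - b * c)]
  have hfin : ((i : ℝ) - u) ^ 2 / M ≤ 2 * (M - (a * c + b * d)) := by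
    rw [div_le_iff₀ hM']
    have e1 : (a * d - b * c) ^ 2 = (M - (a * c + b * d)) * (M + (a * c + b * d)) := by
      linear_combination (-1 : ℝ) * hM2
    have e2 : (M - (a * c + b * d)) * (M + (a * c + b * d))
        ≤ (M - (a * c + b * d)) * (2 * M) := by
      apply mul_le_mul_of_nonneg_left _ (by linarith)
      linarith
    calc ((i : ℝ) - u) ^ 2 ≤ (M - (a * c + b * d)) * (2 * M) := by
          rw [e1] at hkey; exact hkey.trans e2
      _ = 2 * (M - (a * c + b * d)) * M := by ring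
  have : -((i : ℝ) - u) ^ 2 / M = -(((i : ℝ) - u) ^ 2 / M) := by ring
  rw [this]
  linarith

lemma T_ge (M i : ℕ) (hM : 0 < M) (hi : i ≤ M) (x : ℝ) (hx : 0 < x) (hx1 : x < 1) :
    Real.exp (-((i : ℝ) - M * x) ^ 2 / (M * (x * (1 - x)))) ≤ T M i x (1 - x) := by
  have hM' : (0 : ℝ) < M := by exact_mod_cast hM
  have hc : ((M - i : ℕ) : ℝ) = (M : ℝ) - i := by push_cast [hi]; ring
  have hx1' : 0 < 1 - x := by linarith
  have h1 := pow_div_ge ((M : ℝ) * x) (by positivity) i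
  have h2 := pow_div_ge ((M : ℝ) * (1 - x)) (by positivity) (M - i)
  have h3 : Real.exp ((i : ℝ) - (i : ℝ) ^ 2 / (M * x)) *
      Real.exp (((M - i : ℕ) : ℝ) - ((M - i : ℕ) : ℝ) ^ 2 / (M * (1 - x))) ≤ T M i x (1 - x) := by
    unfold T
    exact mul_le_mul h1 h2 (Real.exp_pos _).le (by positivity)
  refine le_trans (le_of_eq ?_) h3
  rw [← Real.exp_add, hc]
  congr 1
  field_simp
  ring

end Pool.Agent.BallZero
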