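import Mathlib
import Pool.Agent.MP_922b93_an.Weights
import Pool.Agent.MP_922b93_an.Sums

set_option autoImplicit false

namespace Pool.Agent.BallZero

open Finset

/-- The space `ℂ²`. -/
abbrev E2 := EuclideanSpace ℂ (Fin 2)

/-- coefficient of the normalised monomial -/
noncomputable def coef (M i r : ℕ) : ℝ :=
  (((M : ℝ) / i) ^ i * ((M : ℝ) / ((M - i : ℕ) : ℝ)) ^ (M - i)) ^ r

/-- normalised monomial to the power `2r`, of degree `2 r M` -/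
noncomputable def mono (M i r : ℕ) (x : E2) : ℂ :=
  (coef M i r : ℂ) * (x 0) ^ (2 * (r * i)) * (x 1) ^ (2 * (r * (M - i)))

lemma coef_nonneg (M i r : ℕ) : 0 ≤ coef M i r := by unfold coef; positivity

lemma norm_mono (M i r : ℕ) (x : E2) :
    ‖mono M i r x‖ = (T M i (‖x 0‖ ^ 2) (‖x 1‖ ^ 2)) ^ r := by
  unfold mono T
  rw [norm_mul, norm_mul, norm_pow, norm_pow, Complex.norm_real, Real.norm_of_nonneg (coef_nonneg M i r)]
  unfold coef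
  have h1 : (M : ℝ) * ‖x 0‖ ^ 2 / i = ((M : ℝ) / i) * ‖x 0‖ ^ 2 := by ring
  have h2 : (M : ℝ) * ‖x 1‖ ^ 2 / ((M - i : ℕ) : ℝ) = ((M : ℝ) / ((M - i : ℕ) : ℝ)) * ‖x 1‖ ^ 2 := by
    ring
  rw [h1, h2]
  simp only [mul_pow, ← pow_mul]
  rw [Nat.mul_comm i r, Nat.mul_comm (M - i) r]
  have e1 : 2 * (r * i) = 2 * i * r := by ring
  have e2 : 2 * (r * (M - i)) = 2 * (M - i) * r := by ring
  rw [e1, e2]
  ring

lemma mono_smul (M i r : ℕ) (hi : i ≤ M) (c : ℂ) (x : E2) :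
    mono M i r (c • x) = c ^ (2 * (r * M)) * mono M i r x := by
  unfold mono
  simp only [PiLp.smul_apply, smul_eq_mul, mul_pow]
  have : 2 * (r * M) = 2 * (r * i) + 2 * (r * (M - i)) := by
    have : M = i + (M - i) := by omega
    calc 2 * (r * M) = 2 * (r * (i + (M - i))) := by rw [← this]
      _ = _ := by ring
  rw [this, pow_add]
  ring

lemma mono_differentiable (M i r : ℕ) : Differentiable ℂ (mono M i r) := by
  unfold mono
  fun_prop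

lemma norm_sq_eq (x : E2) : ‖x‖ ^ 2 = ‖x 0‖ ^ 2 + ‖x 1‖ ^ 2 := by
  rw [EuclideanSpace.norm_sq_eq, Fin.sum_univ_two]

lemma norm_mono_le (M i r : ℕ) (hM : 0 < M) (hi : i ≤ M) (x : E2) (hx : ‖x‖ ≤ 1) :
    ‖mono M i r x‖ ≤ Real.exp (-((r : ℝ) / M * ((i : ℝ) - M * ‖x 0‖ ^ 2) ^ 2)) := by
  rw [norm_mono]
  have h1 : ‖x 0‖ ^ 2 + ‖x 1‖ ^ 2 ≤ 1 := by
    rw [← norm_sq_eq]; nlinarith [norm_nonneg x]
  have h2 := T_le M i hM hi (‖x 0‖ ^ 2) (‖x 1‖ ^ 2) (by positivity) (by positivity) h1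
  have h3 := pow_le_pow_left₀ (T_nonneg M i (‖x 0‖ ^ 2) (‖x 1‖ ^ 2) (by positivity) (by positivity)) h2 r
  refine h3.trans (le_of_eq ?_)
  rw [← Real.exp_nat_mul]
  congr 1
  ring

lemma norm_mono_ge (M i r : ℕ) (hM : 0 < M) (hi : i ≤ M) (x : E2) (hx : ‖x‖ = 1)
    (hx1 : 1 / 4 ≤ ‖x 0‖ ^ 2) (hx2 : ‖x 0‖ ^ 2 ≤ 3 / 4) :
    Real.exp (-((r : ℝ) / M * (16 / 3) * ((i : ℝ) - M * ‖x 0‖ ^ 2) ^ 2)) ≤ ‖mono M i r x‖ := by
  rw [norm_mono]
  have h1 : ‖x 1‖ ^ 2 = 1 - ‖x 0‖ ^ 2 := by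
    have := norm_sq_eq x; rw [hx] at this; linarith
  rw [h1]
  set X := ‖x 0‖ ^ 2 with hX
  have hM' : (0 : ℝ) < M := by exact_mod_cast hM
  have h2 := T_ge M i hM hi X (by linarith) (by linarith)
  have h4 : Real.exp (-((16 / 3) * ((i : ℝ) - M * X) ^ 2 / M)) ≤ T M i X (1 - X) := by
    refine le_trans ?_ h2
    apply Real.exp_le_exp.mpr
    rw [neg_div, neg_le_neg_iff]
    have h5 : (3 : ℝ) / 16 ≤ X * (1 - X) := by nlinarith
    rw [div_le_div_iff₀ (by positivity) hM']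
    have h6 : 0 ≤ ((i : ℝ) - M * X) ^ 2 * M := by positivity
    nlinarith
  have h3 := pow_le_pow_left₀ (Real.exp_pos _).le h4 r
  refine le_trans (le_of_eq ?_) h3
  rw [← Real.exp_nat_mul]
  congr 1
  ring

/-- the first family, homogeneous of degree `96 m^2` -/
noncomputable def P (m : ℕ) (x : E2) : ℂ := ∑ j ∈ range (m + 1), mono m j (48 * m) x

/-- the second family, homogeneous of degree `192 m^2` -/
noncomputable def Q (m : ℕ) (x : E2) : ℂ := ∑ j ∈ range m, mono (2 * m) (2 * j + 1) (48 * m) x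

lemma P_differentiable (m : ℕ) : Differentiable ℂ (P m) := by
  unfold P
  exact Differentiable.fun_sum (fun j _ => mono_differentiable m j (48 * m))

lemma Q_differentiable (m : ℕ) : Differentiable ℂ (Q m) := by
  unfold Q
  exact Differentiable.fun_sum (fun j _ => mono_differentiable (2 * m) (2 * j + 1) (48 * m))

lemma P_smul (m : ℕ) (c : ℂ) (x : E2) : P m (c • x) = c ^ (96 * m ^ 2) * P m x := by
  unfold P
  rw [Finset.mul_sum]
  apply Finset.sum_congr rfl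
  intro j hj
  rw [mem_range] at hj
  rw [mono_smul m j (48 * m) (by omega)]
  congr 2
  ring

lemma Q_smul (m : ℕ) (c : ℂ) (x : E2) : Q m (c • x) = c ^ (2 * (96 * m ^ 2)) * Q m x := by
  unfold Q
  rw [Finset.mul_sum]
  apply Finset.sum_congr rfl
  intro j hj
  rw [mem_range] at hj
  rw [mono_smul (2 * m) (2 * j + 1) (48 * m) (by omega)]
  congr 2
  ring

lemma P_term_le (m j : ℕ) (hm : 0 < m) (hj : j ≤ m) (x : E2) (hx : ‖x‖ ≤ 1) :
    ‖mono m j (48 * m) x‖ ≤ Real.exp (-(48 * ((j : ℝ) - m * ‖x 0‖ ^ 2) ^ 2)) := by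
  have h := norm_mono_le m j (48 * m) hm hj x hx
  have hm' : (m : ℝ) ≠ 0 := by exact_mod_cast hm.ne'
  refine h.trans (le_of_eq ?_)
  congr 1
  push_cast
  field_simp

lemma Q_term_le (m j : ℕ) (hm : 0 < m) (hj : j < m) (x : E2) (hx : ‖x‖ ≤ 1) :
    ‖mono (2 * m) (2 * j + 1) (48 * m) x‖ ≤
      Real.exp (-(24 * ((2 * (j : ℝ) + 1) - 2 * m * ‖x 0‖ ^ 2) ^ 2)) := by
  have h := norm_mono_le (2 * m) (2 * j + 1) (48 * m) (by omega) (by omega) x hx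
  have hm' : (m : ℝ) ≠ 0 := by exact_mod_cast hm.ne'
  refine h.trans (le_of_eq ?_)
  congr 1
  push_cast
  field_simp
  ring

lemma P_term_ge (m j : ℕ) (hm : 0 < m) (hj : j ≤ m) (x : E2) (hx : ‖x‖ = 1)
    (hx1 : 1 / 4 ≤ ‖x 0‖ ^ 2) (hx2 : ‖x 0‖ ^ 2 ≤ 3 / 4) :
    Real.exp (-(256 * ((j : ℝ) - m * ‖x 0‖ ^ 2) ^ 2)) ≤ ‖mono m j (48 * m) x‖ := by
  have h := norm_mono_ge m j (48 * m) hm hj x hx hx1 hx2
  have hm' : (m : ℝ) ≠ 0 := by exact_mod_cast hm.ne'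
  refine le_trans (le_of_eq ?_) h
  congr 1
  push_cast
  field_simp
  ring

lemma Q_term_ge (m j : ℕ) (hm : 0 < m) (hj : j < m) (x : E2) (hx : ‖x‖ = 1)
    (hx1 : 1 / 4 ≤ ‖x 0‖ ^ 2) (hx2 : ‖x 0‖ ^ 2 ≤ 3 / 4) :
    Real.exp (-(128 * ((2 * (j : ℝ) + 1) - 2 * m * ‖x 0‖ ^ 2) ^ 2)) ≤
      ‖mono (2 * m) (2 * j + 1) (48 * m) x‖ := by
  have h := norm_mono_ge (2 * m) (2 * j + 1) (48 * m) (by omega) (by omega) x hx hx1 hx2
  have hm' : (m : ℝ) ≠ 0 := by exact_mod_cast hm.ne'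
  refine le_trans (le_of_eq ?_) h
  congr 1
  push_cast
  field_simp
  ring

end Pool.Agent.BallZero
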