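import Mathlib
import Pool.Agent.MP_922b93_an.Polys

set_option autoImplicit false

namespace Pool.Agent.BallZero

open Finset Metric

/-- For homogeneous functions bounded by `2` on the closed unit ball. -/
lemma homog_norm_le (g : E2 → ℂ) (N : ℕ) (hg : ∀ (c : ℂ) (x : E2), g (c • x) = c ^ N * g x)
    (hb : ∀ x : E2, ‖x‖ ≤ 1 → ‖g x‖ ≤ 2) (x : E2) : ‖g x‖ ≤ 2 * ‖x‖ ^ N := by
  by_cases hx : x = 0
  · subst hx
    rcases Nat.eq_zero_or_pos N with h | h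
    · subst h
      simpa using hb 0 (by simp)
    · have h1 : g (0 : E2) = 0 := by
        have := hg 0 0
        rw [zero_smul, zero_pow h.ne', zero_mul] at this
        exact this
      rw [h1, norm_zero]; positivity
  · have hx' : 0 < ‖x‖ := norm_pos_iff.mpr hx
    set u : E2 := ((‖x‖ : ℂ)⁻¹) • x with hu
    have hu1 : ‖u‖ = 1 := by
      rw [hu, norm_smul, norm_inv, Complex.norm_real, norm_norm]
      field_simp
    have hxu : x = (‖x‖ : ℂ) • u := by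
      rw [hu, smul_smul, mul_inv_cancel₀ (by exact_mod_cast hx'.ne'), one_smul]
    have h1 : g x = (‖x‖ : ℂ) ^ N * g u := by
      conv_lhs => rw [hxu]
      rw [hg]
    rw [h1, norm_mul, norm_pow, Complex.norm_real, norm_norm]
    have h2 := hb u (le_of_eq hu1)
    nlinarith [pow_pos hx' N]

lemma homog_lip (g : E2 → ℂ) (hd : Differentiable ℂ g) (N : ℕ)
    (hg : ∀ (c : ℂ) (x : E2), g (c • x) = c ^ N * g x)
    (hb : ∀ x : E2, ‖x‖ ≤ 1 → ‖g x‖ ≤ 2) (x y : E2) (hx : ‖x‖ ≤ 1) (hy : ‖y‖ ≤ 1) :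
    ‖g x - g y‖ ≤ 4 * 2 ^ N * ‖x - y‖ := by
  have h2N : (1 : ℝ) ≤ 2 ^ N := one_le_pow₀ (by norm_num)
  by_cases hxy : ‖x - y‖ < 1
  · have hmaps : Set.MapsTo g (ball y 1) (closedBall (g y) (4 * 2 ^ N)) := by
      intro z hz
      rw [mem_ball, dist_eq_norm] at hz
      rw [mem_closedBall, dist_eq_norm]
      have hz2 : ‖z‖ ≤ 2 := by
        have : ‖z‖ ≤ ‖z - y‖ + ‖y‖ := by
          have := norm_add_le (z - y) y
          rwa [sub_add_cancel] at this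
        linarith
      have h1 : ‖g z‖ ≤ 2 * 2 ^ N := by
        refine (homog_norm_le g N hg hb z).trans ?_
        have := pow_le_pow_left₀ (norm_nonneg z) hz2 N
        linarith
      have h3 : ‖g y‖ ≤ 2 * 2 ^ N := by
        refine (hb y hy).trans ?_
        linarith
      calc ‖g z - g y‖ ≤ ‖g z‖ + ‖g y‖ := norm_sub_le _ _
        _ ≤ 4 * 2 ^ N := by linarith
    have := Complex.dist_le_div_mul_dist_of_mapsTo_ball (hd.differentiableOn) hmaps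
      (z := x) (by rw [mem_ball, dist_eq_norm]; exact hxy)
    rw [dist_eq_norm, dist_eq_norm, div_one] at this
    exact this
  · push Not at hxy
    have h1 := hb x hx
    have h3 := hb y hy
    calc ‖g x - g y‖ ≤ ‖g x‖ + ‖g y‖ := norm_sub_le _ _
      _ ≤ 4 := by linarith
      _ ≤ 4 * 2 ^ N * ‖x - y‖ := by nlinarith

/-- Complex tangential estimate. -/
lemma tangential (g : E2 → ℂ) (hd : Differentiable ℂ g)
    (hb : ∀ x : E2, ‖x‖ ≤ 1 → ‖g x‖ ≤ 2) (a v : E2) (ρ : ℝ) (hρ : 0 < ρ)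
    (horth : ∀ τ : ℂ, ‖a + τ • v‖ ^ 2 = ‖a‖ ^ 2 + ‖τ‖ ^ 2 * ‖v‖ ^ 2)
    (ha : ‖a‖ ^ 2 + ρ ^ 2 ≤ 1) (hv : ‖v‖ < ρ) :
    ‖g (a + v) - g a‖ ≤ 4 / ρ * ‖v‖ := by
  by_cases hv0 : v = 0
  · subst hv0; simp
  have hvp : 0 < ‖v‖ := norm_pos_iff.mpr hv0
  set φ : ℂ → ℂ := fun τ => g (a + τ • v) with hφ
  have hφd : Differentiable ℂ φ := by
    rw [hφ]
    exact hd.comp (by fun_prop)
  have hmaps : Set.MapsTo φ (ball 0 (ρ / ‖v‖)) (closedBall (φ 0) 4) := by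
    intro τ hτ
    rw [mem_ball, dist_zero_right] at hτ
    rw [mem_closedBall, dist_eq_norm]
    have h1 : ‖a + τ • v‖ ≤ 1 := by
      have h2 : ‖τ‖ * ‖v‖ ≤ ρ := by
        have := (lt_div_iff₀ hvp).mp hτ
        exact this.le
      have h3 : ‖a + τ • v‖ ^ 2 ≤ 1 := by
        rw [horth]
        have : ‖τ‖ ^ 2 * ‖v‖ ^ 2 = (‖τ‖ * ‖v‖) ^ 2 := by ring
        rw [this]
        have : (‖τ‖ * ‖v‖) ^ 2 ≤ ρ ^ 2 := pow_le_pow_left₀ (by positivity) h2 2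
        linarith
      nlinarith [norm_nonneg (a + τ • v)]
    have h4 : ‖a‖ ≤ 1 := by nlinarith [norm_nonneg a, sq_nonneg ρ]
    have h5 : ‖φ τ‖ ≤ 2 := hb _ h1
    have h6 : ‖φ 0‖ ≤ 2 := by
      rw [hφ]; simp only [zero_smul, add_zero]; exact hb a h4
    calc ‖φ τ - φ 0‖ ≤ ‖φ τ‖ + ‖φ 0‖ := norm_sub_le _ _
      _ ≤ 4 := by linarith
  have h1 : (1 : ℂ) ∈ ball (0 : ℂ) (ρ / ‖v‖) := by
    rw [mem_ball, dist_zero_right, norm_one, lt_div_iff₀ hvp]; linarith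
  have h := Complex.dist_le_div_mul_dist_of_mapsTo_ball hφd.differentiableOn hmaps h1
  rw [dist_eq_norm, dist_zero_right, norm_one, mul_one] at h
  have e1 : φ 1 = g (a + v) := by rw [hφ]; simp
  have e0 : φ 0 = g a := by rw [hφ]; simp
  rw [e1, e0] at h
  refine h.trans (le_of_eq ?_)
  field_simp

/-- elimination -/
lemma eliminate (A p q X1 X2 X3 : ℂ) (ε κ : ℝ) (hκ : 0 < κ) (hκ1 : κ ≤ 1)
    (h1 : ‖A + p * X1 + q * X1 ^ 2‖ ≤ ε) (h2 : ‖A + p * X2 + q * X2 ^ 2‖ ≤ ε)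
    (h3 : ‖A + p * X3 + q * X3 ^ 2‖ ≤ ε)
    (hX1 : ‖X1‖ ≤ 1) (hX2 : ‖X2‖ ≤ 1)
    (h12 : κ ≤ ‖X1 - X2‖) (h23 : κ ≤ ‖X2 - X3‖) (h13 : κ ≤ ‖X1 - X3‖) :
    ‖p‖ ≤ 10 * ε / κ ^ 2 ∧ ‖q‖ ≤ 10 * ε / κ ^ 2 := by
  have hε : 0 ≤ ε := (norm_nonneg _).trans h1
  set u := p + q * (X1 + X2) with hu
  set w := p + q * (X2 + X3) with hw
  have e1 : ‖(X1 - X2) * u‖ ≤ 2 * ε := by
    have : (X1 - X2) * u = (A + p * X1 + q * X1 ^ 2) - (A + p * X2 + q * X2 ^ 2) := by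
      rw [hu]; ring
    rw [this]
    refine (norm_sub_le _ _).trans ?_
    linarith
  have e2 : ‖(X2 - X3) * w‖ ≤ 2 * ε := by
    have : (X2 - X3) * w = (A + p * X2 + q * X2 ^ 2) - (A + p * X3 + q * X3 ^ 2) := by
      rw [hw]; ring
    rw [this]
    refine (norm_sub_le _ _).trans ?_
    linarith
  rw [norm_mul] at e1 e2
  have f1 : ‖u‖ ≤ 2 * ε / κ := by
    rw [le_div_iff₀ hκ]
    nlinarith [norm_nonneg u]
  have f2 : ‖w‖ ≤ 2 * ε / κ := by
    rw [le_div_iff₀ hκ]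
    nlinarith [norm_nonneg w]
  have e3 : ‖(X1 - X3) * q‖ ≤ 4 * ε / κ := by
    have : (X1 - X3) * q = u - w := by rw [hu, hw]; ring
    rw [this]
    refine (norm_sub_le _ _).trans ?_
    calc ‖u‖ + ‖w‖ ≤ 2 * ε / κ + 2 * ε / κ := by linarith
      _ = 4 * ε / κ := by ring
  rw [norm_mul] at e3
  have f3 : ‖q‖ ≤ 4 * ε / κ ^ 2 := by
    rw [le_div_iff₀ (by positivity)]
    have : ‖q‖ * κ ≤ 4 * ε / κ := by nlinarith [norm_nonneg q]
    calc ‖q‖ * κ ^ 2 = (‖q‖ * κ) * κ := by ring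
      _ ≤ (4 * ε / κ) * κ := mul_le_mul_of_nonneg_right this hκ.le
      _ = 4 * ε := by field_simp
  have g1 : 2 * ε / κ ≤ 2 * ε / κ ^ 2 := by
    apply div_le_div_of_nonneg_left (by linarith) (by positivity)
    nlinarith
  have f4 : ‖p‖ ≤ 10 * ε / κ ^ 2 := by
    have : p = u - q * (X1 + X2) := by rw [hu]; ring
    rw [this]
    refine (norm_sub_le _ _).trans ?_
    rw [norm_mul]
    have hX12 : ‖X1 + X2‖ ≤ 2 := (norm_add_le _ _).trans (by linarith)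
    have : ‖q‖ * ‖X1 + X2‖ ≤ (4 * ε / κ ^ 2) * 2 :=
      mul_le_mul f3 hX12 (norm_nonneg _) (by positivity)
    have e : 10 * ε / κ ^ 2 = 2 * ε / κ ^ 2 + (4 * ε / κ ^ 2) * 2 := by ring
    rw [e]
    linarith
  refine ⟨f4, f3.trans ?_⟩
  apply div_le_div_of_nonneg_right _ (by positivity)
  linarith

/-- modulus of `λ^N` -/
lemma modulus (N : ℕ) (hN : 0 < N) (s C : ℝ) (hs : 0 < s) (l : ℝ) (hl0 : 0 ≤ l)
    (hl1 : l ≤ 1 - s / N) (hl2 : (1 - s / N) ^ 2 - (C * s / N) ^ 2 ≤ l ^ 2)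
    (hN1 : (3 + C ^ 2) * s ≤ 2 * N) (hN2 : 4 * s ≤ N) :
    Real.exp (-(4 * s)) ≤ l ^ N ∧ l ^ N ≤ Real.exp (-s) := by
  have hN' : (0 : ℝ) < N := by exact_mod_cast hN
  constructor
  · set u := 2 * s / (N : ℝ) with hu
    have hu0 : 0 < u := by positivity
    have hu1 : u ≤ 1 / 2 := by rw [hu, div_le_iff₀ hN']; linarith
    have h1 : 1 - u ≤ l := by
      have h2 : (1 - u) ^ 2 ≤ l ^ 2 := by
        refine le_trans ?_ hl2
        have e1 : s / (N : ℝ) = u / 2 := by rw [hu]; ring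
        have e2 : C * s / (N : ℝ) = C * (u / 2) := by rw [hu]; ring
        rw [e1, e2]
        have h3 : (3 + C ^ 2) * u ≤ 4 := by
          rw [hu]
          have : (3 + C ^ 2) * (2 * s / (N : ℝ)) = ((3 + C ^ 2) * s) * 2 / N := by ring
          rw [this, div_le_iff₀ hN']
          linarith
        nlinarith
      exact le_of_sq_le_sq h2 hl0
    have h4 : Real.exp (-(2 * u)) ≤ 1 - u := by
      have h5 : 2 * u + 1 ≤ Real.exp (2 * u) := Real.add_one_le_exp _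
      rw [Real.exp_neg, inv_le_comm₀ (Real.exp_pos _) (by linarith)]
      refine le_trans ?_ h5
      rw [inv_le_comm₀ (by linarith) (by linarith), ← one_div, div_le_iff₀ (by linarith)]
      nlinarith
    have h6 : Real.exp (-(2 * u)) ^ N ≤ l ^ N :=
      pow_le_pow_left₀ (Real.exp_pos _).le (h4.trans h1) N
    refine le_trans (le_of_eq ?_) h6
    rw [← Real.exp_nat_mul]
    congr 1
    rw [hu]; field_simp; ring
  · have h1 : l ≤ Real.exp (-(s / N)) := by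
      have := Real.add_one_le_exp (-(s / (N : ℝ)))
      linarith
    have h2 : l ^ N ≤ Real.exp (-(s / N)) ^ N := pow_le_pow_left₀ hl0 h1 N
    refine h2.trans (le_of_eq ?_)
    rw [← Real.exp_nat_mul]
    congr 1
    field_simp

end Pool.Agent.BallZero
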