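import Mathlib
import Pool.Agent.MP_922b93_an.Polys

set_option autoImplicit false

namespace Pool.Agent.BallZero

open Finset

lemma one_le_abs_sub (i j : ℕ) (h : i ≠ j) : 1 ≤ |(i : ℝ) - j| := by
  have h2 : ((i : ℤ) - (j : ℤ)) ≠ 0 := by
    intro h3; apply h; omega
  have h3 : (1 : ℤ) ≤ |(i : ℤ) - (j : ℤ)| := Int.one_le_abs h2
  have h4 : ((1 : ℤ) : ℝ) ≤ ((|(i : ℤ) - (j : ℤ)| : ℤ) : ℝ) := by exact_mod_cast h3
  push_cast at h4
  exact h4

lemma P_norm_le (m : ℕ) (hm : 0 < m) (x : E2) (hx : ‖x‖ ≤ 1) : ‖P m x‖ ≤ 2 := by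
  set y : ℝ := m * ‖x 0‖ ^ 2 with hy
  have hy0 : 0 ≤ y := by positivity
  set j1 := ⌊y + 1 / 2⌋₊ with hj1
  have h1 : (j1 : ℝ) ≤ y + 1 / 2 := Nat.floor_le (by positivity)
  have h2 : y + 1 / 2 < j1 + 1 := Nat.lt_floor_add_one _
  have h3 : |(j1 : ℝ) - y| ≤ 1 / 2 := by rw [abs_le]; constructor <;> linarith
  have hsum : ‖P m x‖ ≤ ∑ j ∈ range (m + 1), Real.exp (-(48 * ((j : ℝ) - y) ^ 2)) := by
    unfold P
    refine (norm_sum_le _ _).trans (Finset.sum_le_sum ?_)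
    intro j hj
    rw [mem_range] at hj
    exact P_term_le m j hm (by omega) x hx
  have htail := gauss_sum_le 48 (1 / 2) 12 (by norm_num) (by norm_num) (m + 1) j1
    (fun i => (i : ℝ) - y) (by norm_num) (by norm_num) (by
      intro i hi
      have h4 := one_le_abs_sub i j1 hi
      have h5 : |(i : ℝ) - j1| ≤ |(i : ℝ) - y| + |(j1 : ℝ) - y| := by
        have := abs_sub_le (i : ℝ) y (j1 : ℝ)
        rw [abs_sub_comm y (j1 : ℝ)] at this
        exact this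
      linarith)
  have hle : ∑ j ∈ range (m + 1), Real.exp (-(48 * ((j : ℝ) - y) ^ 2)) ≤
      1 + ∑ j ∈ (range (m + 1)).erase j1, Real.exp (-(48 * ((j : ℝ) - y) ^ 2)) := by
    by_cases hmem : j1 ∈ range (m + 1)
    · rw [← Finset.add_sum_erase _ _ hmem]
      have : Real.exp (-(48 * ((j1 : ℝ) - y) ^ 2)) ≤ 1 := by
        apply Real.exp_le_one_iff.mpr
        have := sq_nonneg ((j1 : ℝ) - y)
        linarith
      linarith
    · rw [Finset.erase_eq_of_notMem hmem]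
      linarith
  have he : Real.exp (-12) ≤ 1 / 4 := by
    have h1 : Real.exp (-12) ≤ Real.exp (-3) := Real.exp_le_exp.mpr (by norm_num)
    have h2 : (4 : ℝ) ≤ Real.exp 3 := by
      have := Real.add_one_le_exp (3 : ℝ); linarith
    have h3 : Real.exp (-3) ≤ 1 / 4 := by
      rw [Real.exp_neg, inv_eq_one_div]
      exact one_div_le_one_div_of_le (by norm_num) h2
    linarith
  linarith

lemma Q_norm_le (m : ℕ) (hm : 0 < m) (x : E2) (hx : ‖x‖ ≤ 1) : ‖Q m x‖ ≤ 2 := by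
  set y : ℝ := m * ‖x 0‖ ^ 2 with hy
  have hy0 : 0 ≤ y := by positivity
  set j1 := ⌊y⌋₊ with hj1
  have h1 : (j1 : ℝ) ≤ y := Nat.floor_le (by positivity)
  have h2 : y < j1 + 1 := Nat.lt_floor_add_one _
  have h3 : |(2 * (j1 : ℝ) + 1) - 2 * y| ≤ 1 := by rw [abs_le]; constructor <;> linarith
  have hsum : ‖Q m x‖ ≤ ∑ j ∈ range m, Real.exp (-(24 * ((2 * (j : ℝ) + 1) - 2 * y) ^ 2)) := by
    unfold Q
    refine (norm_sum_le _ _).trans (Finset.sum_le_sum ?_)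
    intro j hj
    rw [mem_range] at hj
    refine (Q_term_le m j hm hj x hx).trans (le_of_eq ?_)
    congr 1
    rw [hy]; ring
  have htail := gauss_sum_le 24 1 24 (by norm_num) (by norm_num) m j1
    (fun i => (2 * (i : ℝ) + 1) - 2 * y) (by norm_num) (by norm_num) (by
      intro i hi
      have h4 := one_le_abs_sub i j1 hi
      have h5 : |2 * ((i : ℝ) - j1)| ≤ |(2 * (i : ℝ) + 1) - 2 * y| + |(2 * (j1 : ℝ) + 1) - 2 * y| := by
        have := abs_sub_le (2 * (i : ℝ) + 1) (2 * y) (2 * (j1 : ℝ) + 1)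
        rw [abs_sub_comm (2 * y) (2 * (j1 : ℝ) + 1)] at this
        refine le_trans (le_of_eq ?_) this
        congr 1; ring
      rw [abs_mul, abs_two] at h5
      linarith)
  have hle : ∑ j ∈ range m, Real.exp (-(24 * ((2 * (j : ℝ) + 1) - 2 * y) ^ 2)) ≤
      1 + ∑ j ∈ (range m).erase j1, Real.exp (-(24 * ((2 * (j : ℝ) + 1) - 2 * y) ^ 2)) := by
    by_cases hmem : j1 ∈ range m
    · rw [← Finset.add_sum_erase _ _ hmem]
      have : Real.exp (-(24 * ((2 * (j1 : ℝ) + 1) - 2 * y) ^ 2)) ≤ 1 := by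
        apply Real.exp_le_one_iff.mpr
        have := sq_nonneg ((2 * (j1 : ℝ) + 1) - 2 * y)
        linarith
      linarith
    · rw [Finset.erase_eq_of_notMem hmem]
      linarith
  have he : Real.exp (-24) ≤ 1 / 4 := by
    have h1 : Real.exp (-24) ≤ Real.exp (-3) := Real.exp_le_exp.mpr (by norm_num)
    have h2 : (4 : ℝ) ≤ Real.exp 3 := by
      have := Real.add_one_le_exp (3 : ℝ); linarith
    have h3 : Real.exp (-3) ≤ 1 / 4 := by
      rw [Real.exp_neg, inv_eq_one_div]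
      exact one_div_le_one_div_of_le (by norm_num) h2
    linarith
  linarith

lemma norm_sum_ge_of_main (n j0 : ℕ) (hj0 : j0 ∈ range n) (F : ℕ → ℂ) (G : ℕ → ℝ)
    (hFG : ∀ j ∈ range n, ‖F j‖ ≤ G j) :
    ‖F j0‖ - ∑ j ∈ (range n).erase j0, G j ≤ ‖∑ j ∈ range n, F j‖ := by
  rw [← Finset.add_sum_erase _ _ hj0]
  have h1 : ‖∑ j ∈ (range n).erase j0, F j‖ ≤ ∑ j ∈ (range n).erase j0, G j := by
    refine (norm_sum_le _ _).trans (Finset.sum_le_sum ?_)
    intro j hj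
    exact hFG j (Finset.mem_of_mem_erase hj)
  have h2 : ‖F j0‖ ≤ ‖F j0 + ∑ j ∈ (range n).erase j0, F j‖ + ‖∑ j ∈ (range n).erase j0, F j‖ := by
    have := norm_sub_le (F j0 + ∑ j ∈ (range n).erase j0, F j) (∑ j ∈ (range n).erase j0, F j)
    rwa [add_sub_cancel_right] at this
  linarith

lemma P_good (m j0 : ℕ) (hm : 0 < m) (hj0 : j0 ≤ m) (x : E2) (hx : ‖x‖ = 1)
    (hx1 : 1 / 4 ≤ ‖x 0‖ ^ 2) (hx2 : ‖x 0‖ ^ 2 ≤ 3 / 4)
    (hy : |(j0 : ℝ) - m * ‖x 0‖ ^ 2| ≤ 1 / 4) :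
    Real.exp (-32) / 2 ≤ ‖P m x‖ := by
  set y : ℝ := m * ‖x 0‖ ^ 2 with hydef
  have hmain := P_term_ge m j0 hm hj0 x hx hx1 hx2
  have hmain2 : Real.exp (-16) ≤ ‖mono m j0 (48 * m) x‖ := by
    refine le_trans (Real.exp_le_exp.mpr ?_) hmain
    have : ((j0 : ℝ) - y) ^ 2 ≤ 1 / 16 := by
      rw [← sq_abs]
      calc |(j0 : ℝ) - y| ^ 2 ≤ (1 / 4) ^ 2 := pow_le_pow_left₀ (abs_nonneg _) hy 2
        _ = 1 / 16 := by norm_num
    linarith
  have htail := gauss_sum_le 48 (3 / 4) 27 (by norm_num) (by norm_num) (m + 1) j0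
    (fun i => (i : ℝ) - y) (by norm_num) (by norm_num) (by
      intro i hi
      have h4 := one_le_abs_sub i j0 hi
      have h5 : |(i : ℝ) - j0| ≤ |(i : ℝ) - y| + |(j0 : ℝ) - y| := by
        have := abs_sub_le (i : ℝ) y (j0 : ℝ)
        rw [abs_sub_comm y (j0 : ℝ)] at this
        exact this
      linarith)
  have h6 := norm_sum_ge_of_main (m + 1) j0 (by rw [mem_range]; omega)
    (fun j => mono m j (48 * m) x) (fun j => Real.exp (-(48 * ((j : ℝ) - y) ^ 2))) (by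
      intro j hj
      rw [mem_range] at hj
      exact P_term_le m j hm (by omega) x (le_of_eq hx))
  have h7 : 4 * Real.exp (-27) ≤ Real.exp (-16) / 2 := by
    have e1 : Real.exp (-16) = Real.exp (-27) * Real.exp 11 := by rw [← Real.exp_add]; norm_num
    have e2 : (8 : ℝ) ≤ Real.exp 11 := by
      have := Real.add_one_le_exp (11 : ℝ); linarith
    rw [e1]
    nlinarith [Real.exp_pos (-27)]
  have h8 : Real.exp (-32) ≤ Real.exp (-16) := Real.exp_le_exp.mpr (by norm_num)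
  unfold P
  linarith

lemma Q_good (m j0 : ℕ) (hm : 0 < m) (hj0 : j0 < m) (x : E2) (hx : ‖x‖ = 1)
    (hx1 : 1 / 4 ≤ ‖x 0‖ ^ 2) (hx2 : ‖x 0‖ ^ 2 ≤ 3 / 4)
    (hy : |(2 * (j0 : ℝ) + 1) - 2 * m * ‖x 0‖ ^ 2| ≤ 1 / 2) :
    Real.exp (-32) / 2 ≤ ‖Q m x‖ := by
  set y : ℝ := m * ‖x 0‖ ^ 2 with hydef
  have hy' : |(2 * (j0 : ℝ) + 1) - 2 * y| ≤ 1 / 2 := by
    refine le_trans (le_of_eq ?_) hy
    congr 1; rw [hydef]; ring
  have hmain := Q_term_ge m j0 hm hj0 x hx hx1 hx2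
  have hmain2 : Real.exp (-32) ≤ ‖mono (2 * m) (2 * j0 + 1) (48 * m) x‖ := by
    refine le_trans (Real.exp_le_exp.mpr ?_) hmain
    have : ((2 * (j0 : ℝ) + 1) - 2 * m * ‖x 0‖ ^ 2) ^ 2 ≤ 1 / 4 := by
      rw [← sq_abs]
      calc |(2 * (j0 : ℝ) + 1) - 2 * m * ‖x 0‖ ^ 2| ^ 2 ≤ (1 / 2) ^ 2 :=
            pow_le_pow_left₀ (abs_nonneg _) hy 2
        _ = 1 / 4 := by norm_num
    linarith
  have htail := gauss_sum_le 24 (3 / 2) 54 (by norm_num) (by norm_num) m j0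
    (fun i => (2 * (i : ℝ) + 1) - 2 * y) (by norm_num) (by norm_num) (by
      intro i hi
      have h4 := one_le_abs_sub i j0 hi
      have h5 : |2 * ((i : ℝ) - j0)| ≤ |(2 * (i : ℝ) + 1) - 2 * y| + |(2 * (j0 : ℝ) + 1) - 2 * y| := by
        have := abs_sub_le (2 * (i : ℝ) + 1) (2 * y) (2 * (j0 : ℝ) + 1)
        rw [abs_sub_comm (2 * y) (2 * (j0 : ℝ) + 1)] at this
        refine le_trans (le_of_eq ?_) this
        congr 1; ring
      rw [abs_mul, abs_two] at h5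
      linarith)
  have h6 := norm_sum_ge_of_main m j0 (by rw [mem_range]; omega)
    (fun j => mono (2 * m) (2 * j + 1) (48 * m) x)
    (fun j => Real.exp (-(24 * ((2 * (j : ℝ) + 1) - 2 * y) ^ 2))) (by
      intro j hj
      rw [mem_range] at hj
      refine (Q_term_le m j hm (by omega) x (le_of_eq hx)).trans (le_of_eq ?_)
      congr 1; rw [hydef]; ring)
  have h7 : 4 * Real.exp (-54) ≤ Real.exp (-32) / 2 := by
    have e1 : Real.exp (-32) = Real.exp (-54) * Real.exp 22 := by rw [← Real.exp_add]; norm_num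
    have e2 : (8 : ℝ) ≤ Real.exp 22 := by
      have := Real.add_one_le_exp (22 : ℝ); linarith
    rw [e1]
    nlinarith [Real.exp_pos (-54)]
  unfold Q
  linarith

/-- The covering lemma: one of the two polynomials is large at each relevant point. -/
lemma P_or_Q_good (m : ℕ) (hm : 0 < m) (x : E2) (hx : ‖x‖ = 1)
    (hx1 : 1 / 4 ≤ ‖x 0‖ ^ 2) (hx2 : ‖x 0‖ ^ 2 ≤ 3 / 4) :
    Real.exp (-32) / 2 ≤ ‖P m x‖ ∨ Real.exp (-32) / 2 ≤ ‖Q m x‖ := by
  set y : ℝ := m * ‖x 0‖ ^ 2 with hy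
  have hm' : (0 : ℝ) < m := by exact_mod_cast hm
  have hy0 : 0 ≤ y := by positivity
  have hym : y < m := by rw [hy]; nlinarith
  set j0 := ⌊y⌋₊ with hj0
  have h1 : (j0 : ℝ) ≤ y := Nat.floor_le hy0
  have h2 : y < j0 + 1 := Nat.lt_floor_add_one _
  have hj0m : j0 < m := by
    have : (j0 : ℝ) < m := by linarith
    exact_mod_cast this
  by_cases hA : y - j0 ≤ 1 / 4
  · left
    exact P_good m j0 hm hj0m.le x hx hx1 hx2 (by rw [← hy, abs_le]; constructor <;> linarith)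
  · by_cases hB : 3 / 4 ≤ y - j0
    · left
      exact P_good m (j0 + 1) hm (by omega) x hx hx1 hx2
        (by push_cast; rw [← hy, abs_le]; constructor <;> linarith)
    · right
      push Not at hA hB
      refine Q_good m j0 hm hj0m x hx hx1 hx2 ?_
      have : 2 * (m : ℝ) * ‖x 0‖ ^ 2 = 2 * y := by rw [hy]; ring
      rw [this, abs_le]; constructor <;> linarith

end Pool.Agent.BallZero
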