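import Mathlib
import Pool.Agent.MP_922b93_an.Bounds
import Pool.Agent.MP_922b93_an.Analysis

set_option autoImplicit false

namespace Pool.Agent.BallZero

open Finset Metric

/-- Lipschitz bounds of the partial sums -/
def L : ℕ → ℕ
  | 0 => 2
  | (k + 1) => L k + 4 ^ (96 * (4 ^ k * L k) ^ 2)

/-- the parameters `m_k` -/
def mm (k : ℕ) : ℕ := 4 ^ k * L k

/-- the degrees -/
def NN (k : ℕ) : ℕ := 96 * (mm k) ^ 2

lemma L_succ (k : ℕ) : L (k + 1) = L k + 4 ^ (NN k) := rfl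

lemma L_pos (k : ℕ) : 0 < L k := by
  induction k with
  | zero => simp [L]
  | succ k ih => rw [L_succ]; exact Nat.add_pos_left ih _

lemma mm_pos (k : ℕ) : 0 < mm k := by
  unfold mm; have := L_pos k; positivity

lemma NN_pos (k : ℕ) : 0 < NN k := by
  unfold NN; have := mm_pos k; positivity

lemma mm_le_NN (k : ℕ) : mm k ≤ NN k := by
  unfold NN
  have := mm_pos k
  nlinarith

lemma four_pow_L_le (k : ℕ) : 4 ^ k * L k ≤ NN k := mm_le_NN k

lemma four_pow_le_NN (k : ℕ) : 4 ^ k ≤ NN k := by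
  have h1 := four_pow_L_le k
  have h2 := L_pos k
  have h3 : 4 ^ k * 1 ≤ 4 ^ k * L k := Nat.mul_le_mul_left _ h2
  omega

lemma NN_succ_ge (k : ℕ) : 2 ^ k * NN k ≤ NN (k + 1) := by
  have h1 := four_pow_L_le (k + 1)
  rw [L_succ] at h1
  have h2 : NN k ≤ 4 ^ NN k := (Nat.lt_pow_self (by norm_num)).le
  have h3 : 2 ^ k ≤ 4 ^ (k + 1) := by
    calc 2 ^ k ≤ 4 ^ k := Nat.pow_le_pow_left (by norm_num) k
      _ ≤ 4 ^ (k + 1) := Nat.pow_le_pow_right (by norm_num) (by omega)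
  calc 2 ^ k * NN k ≤ 4 ^ (k + 1) * 4 ^ NN k := Nat.mul_le_mul h3 h2
    _ ≤ 4 ^ (k + 1) * (L k + 4 ^ NN k) := Nat.mul_le_mul_left _ (by omega)
    _ ≤ NN (k + 1) := h1

lemma NN_le_succ (k : ℕ) : NN k ≤ NN (k + 1) := by
  have h1 := NN_succ_ge k
  have h2 : 1 ≤ 2 ^ k := Nat.one_le_two_pow
  have h3 : 1 * NN k ≤ 2 ^ k * NN k := Nat.mul_le_mul_right _ h2
  omega

lemma NN_mono : Monotone NN := monotone_nat_of_le_succ NN_le_succ

/-- the coefficients -/
noncomputable def eta (k : ℕ) : ℝ := (1 / 2) ^ k / 64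

lemma eta_pos (k : ℕ) : 0 < eta k := by unfold eta; positivity

/-- the blocks -/
noncomputable def g (k : ℕ) (x : E2) : ℂ := (eta k : ℂ) * (P (mm k) x + Q (mm k) x)

lemma g_differentiable (k : ℕ) : Differentiable ℂ (g k) := by
  unfold g
  exact ((P_differentiable (mm k)).add (Q_differentiable (mm k))).const_mul _

lemma P_norm_le_pow (k : ℕ) (x : E2) : ‖P (mm k) x‖ ≤ 2 * ‖x‖ ^ (NN k) :=
  homog_norm_le (P (mm k)) (NN k) (fun c x => P_smul (mm k) c x)
    (fun x hx => P_norm_le (mm k) (mm_pos k) x hx) x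

lemma Q_norm_le_pow (k : ℕ) (x : E2) : ‖Q (mm k) x‖ ≤ 2 * ‖x‖ ^ (2 * NN k) :=
  homog_norm_le (Q (mm k)) (2 * NN k) (fun c x => Q_smul (mm k) c x)
    (fun x hx => Q_norm_le (mm k) (mm_pos k) x hx) x

lemma g_norm_le_pow (k : ℕ) (x : E2) (hx : ‖x‖ ≤ 1) : ‖g k x‖ ≤ 4 * eta k * ‖x‖ ^ (NN k) := by
  unfold g
  rw [norm_mul, Complex.norm_real, Real.norm_of_nonneg (eta_pos k).le]
  have h1 := P_norm_le_pow k x
  have h2 := Q_norm_le_pow k x
  have h3 : ‖x‖ ^ (2 * NN k) ≤ ‖x‖ ^ (NN k) :=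
    pow_le_pow_of_le_one (norm_nonneg x) hx (by omega)
  have h4 : ‖P (mm k) x + Q (mm k) x‖ ≤ 4 * ‖x‖ ^ (NN k) := (norm_add_le _ _).trans (by linarith)
  have h5 := mul_le_mul_of_nonneg_left h4 (eta_pos k).le
  linarith

lemma g_norm_le (k : ℕ) (x : E2) (hx : ‖x‖ ≤ 1) : ‖g k x‖ ≤ 4 * eta k := by
  refine (g_norm_le_pow k x hx).trans ?_
  have h1 : ‖x‖ ^ (NN k) ≤ 1 := pow_le_one₀ (norm_nonneg x) hx
  have := eta_pos k
  nlinarith

lemma hasSum_eta : HasSum (fun k => 4 * eta k) (1 / 8) := by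
  have h := hasSum_geometric_of_lt_one (r := (1 / 2 : ℝ)) (by norm_num) (by norm_num)
  have h2 := h.mul_left (1 / 16)
  have e1 : (fun k => 4 * eta k) = (fun k : ℕ => 1 / 16 * (1 / 2 : ℝ) ^ k) := by
    funext k; unfold eta; ring
  have e2 : (1 / 8 : ℝ) = 1 / 16 * (1 - 1 / 2)⁻¹ := by norm_num
  rw [e1, e2]
  exact h2

lemma g_summable (x : E2) (hx : ‖x‖ ≤ 1) : Summable (fun k => g k x) :=
  Summable.of_norm_bounded hasSum_eta.summable (fun k => g_norm_le k x hx)

/-- partial sums -/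
noncomputable def Ff (k : ℕ) (x : E2) : ℂ := x 0 - x 1 + ∑ j ∈ range k, g j x

/-- the function in the ball algebra -/
noncomputable def f (x : E2) : ℂ := x 0 - x 1 + ∑' j, g j x

lemma coord_le (x : E2) (i : Fin 2) : ‖x i‖ ≤ ‖x‖ := PiLp.norm_apply_le x i

lemma Ff_lip (k : ℕ) (x y : E2) (hx : ‖x‖ ≤ 1) (hy : ‖y‖ ≤ 1) :
    ‖Ff k x - Ff k y‖ ≤ (L k : ℝ) * ‖x - y‖ := by
  induction k with
  | zero =>
    unfold Ff
    simp only [range_zero, sum_empty, add_zero]
    have h1 : x 0 - x 1 - (y 0 - y 1) = (x - y) 0 - (x - y) 1 := by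
      simp only [PiLp.sub_apply]; ring
    rw [h1]
    have h2 := coord_le (x - y) 0
    have h3 := coord_le (x - y) 1
    refine (norm_sub_le _ _).trans ?_
    have : ((L 0 : ℕ) : ℝ) = 2 := by simp [L]
    rw [this]; linarith
  | succ k ih =>
    have e1 : Ff (k + 1) x - Ff (k + 1) y = (Ff k x - Ff k y) +
        (eta k : ℂ) * ((P (mm k) x - P (mm k) y) + (Q (mm k) x - Q (mm k) y)) := by
      unfold Ff
      rw [Finset.sum_range_succ, Finset.sum_range_succ]
      unfold g; ring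
    rw [e1]
    have h1 := homog_lip (P (mm k)) (P_differentiable _) (NN k) (fun c x => P_smul (mm k) c x)
      (fun x hx => P_norm_le (mm k) (mm_pos k) x hx) x y hx hy
    have h2 := homog_lip (Q (mm k)) (Q_differentiable _) (2 * NN k) (fun c x => Q_smul (mm k) c x)
      (fun x hx => Q_norm_le (mm k) (mm_pos k) x hx) x y hx hy
    have h3 : (2 : ℝ) ^ (2 * NN k) = 4 ^ NN k := by
      rw [pow_mul]; norm_num
    have h4 : (2 : ℝ) ^ (NN k) ≤ 4 ^ NN k := pow_le_pow_left₀ (by norm_num) (by norm_num) _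
    rw [h3] at h2
    have h5 : eta k ≤ 1 / 64 := by
      unfold eta
      have : (1 / 2 : ℝ) ^ k ≤ 1 := pow_le_one₀ (by norm_num) (by norm_num)
      linarith
    have h6 : ‖(eta k : ℂ) * ((P (mm k) x - P (mm k) y) + (Q (mm k) x - Q (mm k) y))‖ ≤
        4 ^ NN k * ‖x - y‖ := by
      rw [norm_mul, Complex.norm_real, Real.norm_of_nonneg (eta_pos k).le]
      have h7 : ‖(P (mm k) x - P (mm k) y) + (Q (mm k) x - Q (mm k) y)‖ ≤
          8 * (4 ^ NN k * ‖x - y‖) := by
        refine (norm_add_le _ _).trans ?_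
        have := mul_le_mul_of_nonneg_right h4 (norm_nonneg (x - y))
        linarith
      have h8 : 0 ≤ 4 ^ NN k * ‖x - y‖ := by positivity
      calc eta k * ‖(P (mm k) x - P (mm k) y) + (Q (mm k) x - Q (mm k) y)‖
          ≤ 1 / 64 * (8 * (4 ^ NN k * ‖x - y‖)) :=
            mul_le_mul h5 h7 (norm_nonneg _) (by norm_num)
        _ ≤ 4 ^ NN k * ‖x - y‖ := by linarith
    refine (norm_add_le _ _).trans ?_
    rw [L_succ]
    push_cast
    linarith

lemma f_split (k : ℕ) (x : E2) (hx : ‖x‖ ≤ 1) :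
    ‖f x - (Ff k x + g k x)‖ ≤ 4 * eta k * ‖x‖ ^ (NN (k + 1)) := by
  have h1 := (g_summable x hx).sum_add_tsum_nat_add (k + 1)
  have e1 : f x - (Ff k x + g k x) = ∑' j, g (j + (k + 1)) x := by
    unfold f Ff
    rw [← h1, Finset.sum_range_succ]
    ring
  rw [e1]
  have h2 : HasSum (fun j : ℕ => 4 * eta (j + (k + 1)) * ‖x‖ ^ (NN (k + 1)))
      (4 * eta k * ‖x‖ ^ (NN (k + 1))) := by
    have h := (hasSum_geometric_of_lt_one (r := (1 / 2 : ℝ)) (by norm_num) (by norm_num)).mul_left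
      (4 * ((1 / 2) ^ (k + 1) / 64) * ‖x‖ ^ (NN (k + 1)))
    have e2 : (fun j : ℕ => 4 * eta (j + (k + 1)) * ‖x‖ ^ (NN (k + 1))) =
        (fun j : ℕ => 4 * ((1 / 2) ^ (k + 1) / 64) * ‖x‖ ^ (NN (k + 1)) * (1 / 2) ^ j) := by
      funext j; unfold eta; rw [pow_add]; ring
    have e3 : 4 * eta k * ‖x‖ ^ (NN (k + 1)) =
        4 * ((1 / 2) ^ (k + 1) / 64) * ‖x‖ ^ (NN (k + 1)) * (1 - 1 / 2)⁻¹ := by
      unfold eta; rw [pow_succ]; ring
    rw [e2, e3]
    exact h
  refine tsum_of_norm_bounded h2 (fun j => ?_)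
  refine (g_norm_le_pow (j + (k + 1)) x hx).trans ?_
  have h3 : ‖x‖ ^ (NN (j + (k + 1))) ≤ ‖x‖ ^ (NN (k + 1)) :=
    pow_le_pow_of_le_one (norm_nonneg x) hx (NN_mono (by omega))
  exact mul_le_mul_of_nonneg_left h3 (by have := eta_pos (j + (k + 1)); positivity)

lemma f_zero : f 0 = 0 := by
  unfold f
  have : ∀ j, g j (0 : E2) = 0 := by
    intro j
    have h := g_norm_le_pow j 0 (by simp)
    rw [norm_zero, zero_pow (NN_pos j).ne', mul_zero] at h
    exact norm_le_zero_iff.mp h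
  simp [this]

lemma f_continuousOn : ContinuousOn f (closedBall 0 1) := by
  unfold f
  apply ContinuousOn.add
  · fun_prop
  · apply continuousOn_tsum (u := fun k => 4 * eta k)
    · intro i; exact (g_differentiable i).continuous.continuousOn
    · exact hasSum_eta.summable
    · intro n x hx
      rw [mem_closedBall, dist_zero_right] at hx
      exact g_norm_le n x hx

lemma g_fderiv_le (k : ℕ) (r : ℝ) (hr : r < 1) (x : E2) (hx : x ∈ ball (0 : E2) r) :
    ‖fderiv ℂ (g k) x‖ ≤ 4 * eta k * (2 / (1 - r)) := by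
  rw [mem_ball, dist_zero_right] at hx
  have h1r : 0 < 1 - r := by linarith
  refine ((g_differentiable k x).hasFDerivAt).le_of_lip' (by have := eta_pos k; positivity) ?_
  have hmem : ball x (1 - r) ∈ nhds x := ball_mem_nhds x h1r
  filter_upwards [hmem] with z hz
  have hmaps : Set.MapsTo (g k) (ball x (1 - r)) (closedBall (g k x) (8 * eta k)) := by
    intro w hw
    rw [mem_ball, dist_eq_norm] at hw
    rw [mem_closedBall, dist_eq_norm]
    have hw1 : ‖w‖ ≤ 1 := by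
      have := norm_add_le (w - x) x
      rw [sub_add_cancel] at this
      linarith
    have h2 := g_norm_le k w hw1
    have h3 := g_norm_le k x (by linarith)
    refine (norm_sub_le _ _).trans ?_
    linarith
  have h := Complex.dist_le_div_mul_dist_of_mapsTo_ball (g_differentiable k).differentiableOn hmaps hz
  rw [dist_eq_norm, dist_eq_norm] at h
  refine h.trans (le_of_eq ?_)
  ring

lemma f_differentiableOn : DifferentiableOn ℂ f (ball 0 1) := by
  intro x hx
  rw [mem_ball, dist_zero_right] at hx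
  set r : ℝ := (1 + ‖x‖) / 2 with hr
  have hr1 : r < 1 := by rw [hr]; linarith
  have hxr : x ∈ ball (0 : E2) r := by
    rw [mem_ball, dist_zero_right, hr]; linarith
  have hr0 : 0 < r := by rw [hr]; have := norm_nonneg x; linarith
  have h := hasFDerivAt_tsum_of_isPreconnected (u := fun k => 4 * eta k * (2 / (1 - r)))
    (f := g) (f' := fun k => fderiv ℂ (g k)) (s := ball (0 : E2) r) (x₀ := 0) (x := x)
    (hasSum_eta.summable.mul_right _) isOpen_ball
    ((convex_ball (0 : E2) r).isPreconnected)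
    (fun n y _ => (g_differentiable n y).hasFDerivAt)
    (fun n y hy => g_fderiv_le n r hr1 y hy)
    (mem_ball_self hr0) (g_summable 0 (by simp)) hxr
  have h2 : DifferentiableAt ℂ (fun x : E2 => x 0 - x 1) x := by fun_prop
  exact (h2.add h.differentiableAt).differentiableWithinAt

end Pool.Agent.BallZero
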