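import Mathlib
import Pool.Agent.MP_922b93_an.Series

set_option autoImplicit false

namespace Pool.Agent.BallZero

open Finset Metric

/-- The main estimate at height `s / N_k`. -/
lemma key (C : ℝ) (hC : 1 ≤ C) (k : ℕ) (s : ℝ) (hs : 1 ≤ s) (ζ z : E2) (hζ : ‖ζ‖ = 1)
    (hfz : f z = 0) (hz : ‖z‖ = 1 - s / NN k) (hzζ : ‖ζ - z‖ ≤ C * (s / NN k))
    (hN1 : C ^ 2 * s < NN k) :
    ∃ l : ℂ, ‖l‖ ≤ 1 - s / NN k ∧
      (1 - s / NN k) ^ 2 - (C * s / NN k) ^ 2 ≤ ‖l‖ ^ 2 ∧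
      ‖Ff k ζ + (eta k : ℂ) * (P (mm k) ζ * l ^ (NN k) + Q (mm k) ζ * (l ^ (NN k)) ^ 2)‖ ≤
        eta k * (76 * C * s * (1 / 2) ^ k) := by
  set N : ℝ := (NN k : ℝ) with hN
  have hNpos : 0 < N := by rw [hN]; exact_mod_cast NN_pos k
  have hs0 : 0 < s := by linarith
  set l : ℂ := inner ℂ ζ z with hl
  set v : E2 := z - l • ζ with hv
  have hzv : z = l • ζ + v := by rw [hv]; abel
  have horth0 : inner ℂ ζ v = 0 := by
    rw [hv, inner_sub_right, inner_smul_right, inner_self_eq_norm_sq_to_K, hζ]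
    simp [hl]
  have horth : ∀ τ : ℂ, ‖l • ζ + τ • v‖ ^ 2 = ‖l • ζ‖ ^ 2 + ‖τ‖ ^ 2 * ‖v‖ ^ 2 := by
    intro τ
    have h1 : inner ℂ (l • ζ) (τ • v) = 0 := by
      rw [inner_smul_left, inner_smul_right, horth0]; simp
    have h2 := norm_add_sq_eq_norm_sq_add_norm_sq_of_inner_eq_zero (l • ζ) (τ • v) h1
    rw [norm_smul τ v] at h2
    nlinarith
  have hlζ : ‖l • ζ‖ = ‖l‖ := by rw [norm_smul, hζ, mul_one]
  have hz2 : ‖z‖ ^ 2 = ‖l‖ ^ 2 + ‖v‖ ^ 2 := by
    have := horth 1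
    rw [one_smul, ← hzv, hlζ, norm_one] at this
    linarith
  have hsN : 0 < s / N := by positivity
  have hz0 : 0 ≤ ‖z‖ := norm_nonneg z
  have hz1 : ‖z‖ ≤ 1 := by rw [hz]; linarith
  have hlz : ‖l‖ ≤ ‖z‖ := by
    apply le_of_sq_le_sq _ hz0
    rw [hz2]; nlinarith [sq_nonneg ‖v‖]
  have hvle : ‖v‖ ≤ C * (s / N) := by
    have h1 : ‖ζ - z‖ ^ 2 = ‖(1 - l) • ζ‖ ^ 2 + ‖v‖ ^ 2 := by
      have e : ζ - z = (1 - l) • ζ + (-1 : ℂ) • v := by
        rw [hv]; simp only [sub_smul, one_smul, neg_smul]; abel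
      have h1 : inner ℂ ((1 - l) • ζ) ((-1 : ℂ) • v) = 0 := by
        rw [inner_smul_left, inner_smul_right, horth0]; simp
      have h2 := norm_add_sq_eq_norm_sq_add_norm_sq_of_inner_eq_zero _ _ h1
      rw [← e, norm_smul (-1 : ℂ) v] at h2
      rw [norm_neg, norm_one, one_mul] at h2
      nlinarith
    have h2 : ‖v‖ ≤ ‖ζ - z‖ := by
      apply le_of_sq_le_sq _ (norm_nonneg _)
      rw [h1]; nlinarith [sq_nonneg ‖(1 - l) • ζ‖]
    exact h2.trans hzζ
  refine ⟨l, by rw [← hz]; exact hlz, ?_, ?_⟩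
  · rw [← hz, hz2]
    have h1 : ‖v‖ ^ 2 ≤ (C * s / N) ^ 2 := by
      have e : C * s / N = C * (s / N) := by ring
      rw [e]
      exact pow_le_pow_left₀ (norm_nonneg v) hvle 2
    linarith
  · -- the main estimate
    set ρ : ℝ := Real.sqrt (s / N) with hρ
    have hρ0 : 0 < ρ := Real.sqrt_pos.mpr hsN
    have hρ2 : ρ ^ 2 = s / N := Real.sq_sqrt hsN.le
    have hvρ : ‖v‖ < ρ := by
      refine lt_of_le_of_lt hvle ?_
      have h1 : (C * (s / N)) ^ 2 < ρ ^ 2 := by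
        rw [hρ2]
        have : (C * (s / N)) ^ 2 = (C ^ 2 * s / N) * (s / N) := by field_simp
        rw [this]
        have h3 : C ^ 2 * s / N < 1 := by rw [div_lt_one hNpos]; exact hN1
        nlinarith
      exact lt_of_pow_lt_pow_left₀ 2 hρ0.le h1
    have ha : ‖l • ζ‖ ^ 2 + ρ ^ 2 ≤ 1 := by
      rw [hlζ, hρ2]
      have h1 : ‖l‖ ^ 2 ≤ ‖z‖ := by
        have h2 : ‖l‖ ^ 2 ≤ ‖z‖ ^ 2 := pow_le_pow_left₀ (norm_nonneg l) hlz 2
        nlinarith
      rw [hz] at h1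
      linarith
    have hP := tangential (P (mm k)) (P_differentiable _)
      (fun x hx => P_norm_le (mm k) (mm_pos k) x hx) (l • ζ) v ρ hρ0 horth ha hvρ
    have hQ := tangential (Q (mm k)) (Q_differentiable _)
      (fun x hx => Q_norm_le (mm k) (mm_pos k) x hx) (l • ζ) v ρ hρ0 horth ha hvρ
    rw [← hzv] at hP hQ
    have eP : P (mm k) (l • ζ) = l ^ (NN k) * P (mm k) ζ := P_smul (mm k) l ζ
    have eQ : Q (mm k) (l • ζ) = (l ^ (NN k)) ^ 2 * Q (mm k) ζ := by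
      rw [Q_smul (mm k) l ζ, ← pow_mul, Nat.mul_comm 2]; rfl
    rw [eP] at hP
    rw [eQ] at hQ
    -- bound for 4/ρ * ‖v‖
    have hpow : (0 : ℝ) < (1 / 2) ^ k := by positivity
    have hρk : s / N ≤ (s * (1 / 2) ^ k) ^ 2 := by
      have h4 : (4 : ℝ) ^ k ≤ N := by rw [hN]; exact_mod_cast four_pow_le_NN k
      have h5 : s / N ≤ s / 4 ^ k := div_le_div_of_nonneg_left hs0.le (by positivity) h4
      refine h5.trans ?_
      have e : (s * (1 / 2) ^ k) ^ 2 = s ^ 2 / 4 ^ k := by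
        have e0 : ((1 / 2 : ℝ) ^ k) ^ 2 = 1 / 4 ^ k := by
          rw [← pow_mul, Nat.mul_comm k 2, pow_mul, ← one_div_pow]; norm_num
        rw [mul_pow, e0]; ring
      rw [e]
      apply div_le_div_of_nonneg_right _ (by positivity)
      nlinarith
    have hρle : ρ ≤ s * (1 / 2) ^ k := by
      rw [hρ]
      exact Real.sqrt_le_iff.mpr ⟨by positivity, hρk⟩
    have hb : 4 / ρ * ‖v‖ ≤ 4 * C * s * (1 / 2) ^ k := by
      have h1 : 4 / ρ * ‖v‖ ≤ 4 / ρ * (C * ρ ^ 2) := by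
        rw [hρ2]; exact mul_le_mul_of_nonneg_left hvle (by positivity)
      have h2 : 4 / ρ * (C * ρ ^ 2) = 4 * C * ρ := by field_simp
      rw [h2] at h1
      have h3 : 4 * C * ρ ≤ 4 * C * (s * (1 / 2) ^ k) :=
        mul_le_mul_of_nonneg_left hρle (by positivity)
      linarith
    -- Lipschitz part
    have hLip := Ff_lip k ζ z (le_of_eq hζ) hz1
    have hL : (L k : ℝ) / N ≤ (1 / 2) ^ k * (1 / 2) ^ k := by
      rw [div_le_iff₀ hNpos]
      have h1 : (4 : ℝ) ^ k * L k ≤ N := by rw [hN]; exact_mod_cast four_pow_L_le k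
      have e : (1 / 2 : ℝ) ^ k * (1 / 2) ^ k = 1 / 4 ^ k := by
        rw [← mul_pow, ← one_div_pow]; norm_num
      rw [e, one_div, ← div_eq_inv_mul, le_div_iff₀ (by positivity)]
      linarith
    have hLipb : ‖Ff k ζ - Ff k z‖ ≤ eta k * (64 * C * s * (1 / 2) ^ k) := by
      refine hLip.trans ?_
      have h1 : (L k : ℝ) * ‖ζ - z‖ ≤ (L k : ℝ) * (C * (s / N)) :=
        mul_le_mul_of_nonneg_left hzζ (by positivity)
      refine h1.trans ?_
      have e1 : (L k : ℝ) * (C * (s / N)) = ((L k : ℝ) / N) * (C * s) := by field_simp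
      rw [e1]
      have h2 : ((L k : ℝ) / N) * (C * s) ≤ ((1 / 2) ^ k * (1 / 2) ^ k) * (C * s) :=
        mul_le_mul_of_nonneg_right hL (by positivity)
      refine h2.trans (le_of_eq ?_)
      unfold eta; ring
    -- tail
    have htail := f_split k z hz1
    rw [hfz] at htail
    have htb : ‖z‖ ^ (NN (k + 1)) ≤ (1 / 2) ^ k := by
      have h1 : ‖z‖ ≤ Real.exp (-(s / N)) := by
        rw [hz]
        have := Real.add_one_le_exp (-(s / N))
        linarith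
      have h2 : ‖z‖ ^ (NN (k + 1)) ≤ Real.exp (-(s / N)) ^ (NN (k + 1)) :=
        pow_le_pow_left₀ hz0 h1 _
      refine h2.trans ?_
      rw [← Real.exp_nat_mul]
      have h3 : (2 : ℝ) ^ k ≤ (NN (k + 1) : ℝ) * (s / N) := by
        have h4 : (2 : ℝ) ^ k * N ≤ NN (k + 1) := by rw [hN]; exact_mod_cast NN_succ_ge k
        have h5 : (NN (k + 1) : ℝ) * (s / N) = ((NN (k + 1) : ℝ) / N) * s := by field_simp
        rw [h5]
        have h6 : (2 : ℝ) ^ k ≤ (NN (k + 1) : ℝ) / N := by rw [le_div_iff₀ hNpos]; exact h4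
        have h7 : (0 : ℝ) < 2 ^ k := by positivity
        nlinarith
      have h8 : Real.exp ((NN (k + 1) : ℝ) * -(s / N)) ≤ Real.exp (-(2 ^ k)) := by
        apply Real.exp_le_exp.mpr
        linarith
      refine h8.trans ?_
      rw [Real.exp_neg]
      have h9 : (2 : ℝ) ^ k ≤ Real.exp (2 ^ k) := by
        have := Real.add_one_le_exp ((2 : ℝ) ^ k); linarith
      calc (Real.exp (2 ^ k))⁻¹ ≤ ((2 : ℝ) ^ k)⁻¹ := inv_anti₀ (by positivity) h9
        _ = (1 / 2) ^ k := by rw [one_div, inv_pow]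
    have hη := eta_pos k
    have htail2 : ‖0 - (Ff k z + g k z)‖ ≤ eta k * (4 * (1 / 2) ^ k) := by
      refine htail.trans ?_
      have := mul_le_mul_of_nonneg_left htb (by positivity : 0 ≤ 4 * eta k)
      linarith
    -- the block
    have hblock : ‖(eta k : ℂ) * ((P (mm k) z - l ^ (NN k) * P (mm k) ζ) +
        (Q (mm k) z - (l ^ (NN k)) ^ 2 * Q (mm k) ζ))‖ ≤ eta k * (8 * C * s * (1 / 2) ^ k) := by
      rw [norm_mul, Complex.norm_real, Real.norm_of_nonneg hη.le]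
      apply mul_le_mul_of_nonneg_left _ hη.le
      refine (norm_add_le _ _).trans ?_
      linarith
    have hfinal : Ff k ζ + (eta k : ℂ) * (P (mm k) ζ * l ^ (NN k) + Q (mm k) ζ * (l ^ (NN k)) ^ 2) =
        (Ff k ζ - Ff k z) - (0 - (Ff k z + g k z)) -
        (eta k : ℂ) * ((P (mm k) z - l ^ (NN k) * P (mm k) ζ) +
        (Q (mm k) z - (l ^ (NN k)) ^ 2 * Q (mm k) ζ)) := by
      unfold g; ring
    rw [hfinal]
    refine (norm_sub_le _ _).trans ?_
    have h10 := norm_sub_le (Ff k ζ - Ff k z) (0 - (Ff k z + g k z))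
    have h11 : eta k * (4 * (1 / 2) ^ k) ≤ eta k * (4 * C * s * (1 / 2) ^ k) := by
      apply mul_le_mul_of_nonneg_left _ hη.le
      apply mul_le_mul_of_nonneg_right _ hpow.le
      nlinarith
    have e12 : eta k * (76 * C * s * (1 / 2) ^ k) = eta k * (64 * C * s * (1 / 2) ^ k) +
        eta k * (4 * C * s * (1 / 2) ^ k) + eta k * (8 * C * s * (1 / 2) ^ k) := by ring
    rw [e12]
    linarith

end Pool.Agent.BallZero
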