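import Mathlib
import Pool.Agent.MP_922b93_an.Key

set_option autoImplicit false

namespace Pool.Agent.BallZero

open Finset Metric Filter Topology

lemma f_sub_coords (x : E2) (hx : ‖x‖ ≤ 1) : ‖f x - (x 0 - x 1)‖ ≤ 1 / 8 := by
  have e : f x - (x 0 - x 1) = ∑' j, g j x := by unfold f; ring
  rw [e]
  exact tsum_of_norm_bounded hasSum_eta (fun j => g_norm_le j x hx)

lemma zero_coords (ζ : E2) (hζ : ‖ζ‖ = 1) (hf : f ζ = 0) :
    1 / 4 ≤ ‖ζ 0‖ ^ 2 ∧ ‖ζ 0‖ ^ 2 ≤ 3 / 4 := by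
  have h1 := f_sub_coords ζ (le_of_eq hζ)
  rw [hf, zero_sub, norm_neg] at h1
  have h2 : ‖ζ 0‖ - ‖ζ 1‖ ≤ 1 / 8 := (norm_sub_norm_le _ _).trans h1
  have h3 : ‖ζ 1‖ - ‖ζ 0‖ ≤ 1 / 8 := by
    rw [norm_sub_rev] at h1
    exact (norm_sub_norm_le _ _).trans h1
  have h4 := norm_sq_eq ζ
  rw [hζ] at h4
  have h5 := norm_nonneg (ζ 0)
  have h6 := norm_nonneg (ζ 1)
  have h7 : ‖ζ 0‖ ≤ 1 := by nlinarith
  have h8 : ‖ζ 1‖ ≤ 1 := by nlinarith
  constructor <;> nlinarith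

lemma N_tendsto : Tendsto (fun k => (NN k : ℝ)) atTop atTop := by
  apply tendsto_natCast_atTop_atTop.comp
  apply tendsto_atTop_mono (fun k => four_pow_le_NN k)
  exact tendsto_pow_atTop_atTop_of_one_lt (by norm_num)

theorem no_path (γ : ℝ → E2) (ζ : E2) (C : ℝ) (hζ : ‖ζ‖ = 1)
    (hγ : ContinuousOn γ (Set.Ico 0 1))
    (hγf : ∀ t ∈ Set.Ico (0 : ℝ) 1, γ t ∈ Metric.ball (0 : E2) 1 ∧ f (γ t) = 0)
    (hlim : Filter.Tendsto γ (nhdsWithin 1 (Set.Iio 1)) (nhds ζ))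
    (hC : ∀ t ∈ Set.Ico (0 : ℝ) 1, ‖ζ - γ t‖ ≤ C * (1 - ‖γ t‖)) : False := by
  -- replace C by max C 1
  set C' := max C 1 with hC'
  have hC1 : 1 ≤ C' := le_max_right _ _
  have hCt : ∀ t ∈ Set.Ico (0 : ℝ) 1, ‖ζ - γ t‖ ≤ C' * (1 - ‖γ t‖) := by
    intro t ht
    refine (hC t ht).trans ?_
    have h1 := (hγf t ht).1
    rw [mem_ball, dist_zero_right] at h1
    exact mul_le_mul_of_nonneg_right (le_max_left _ _) (by linarith)
  -- f ζ = 0
  have hlim0 : Tendsto γ (nhdsWithin 1 (Set.Ico 0 1)) (nhds ζ) := by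
    apply hlim.mono_left
    apply nhdsWithin_mono
    intro t ht; exact ht.2
  have hne : (nhdsWithin (1 : ℝ) (Set.Ico 0 1)).NeBot := by
    apply mem_closure_iff_nhdsWithin_neBot.mp
    rw [closure_Ico (by norm_num)]
    exact ⟨by norm_num, le_refl _⟩
  have hfζ : f ζ = 0 := by
    have h1 : ζ ∈ closedBall (0 : E2) 1 := by rw [mem_closedBall, dist_zero_right]; exact hζ.le
    have h2 := f_continuousOn ζ h1
    have h3 : Tendsto γ (nhdsWithin 1 (Set.Ico 0 1)) (nhdsWithin ζ (closedBall 0 1)) := by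
      apply tendsto_nhdsWithin_of_tendsto_nhds_of_eventually_within _ hlim0
      filter_upwards [self_mem_nhdsWithin] with t ht
      exact ball_subset_closedBall (hγf t ht).1
    have h4 : Tendsto (fun t => f (γ t)) (nhdsWithin 1 (Set.Ico 0 1)) (nhds (f ζ)) := h2.tendsto.comp h3
    have h5 : Tendsto (fun t => f (γ t)) (nhdsWithin 1 (Set.Ico 0 1)) (nhds 0) := by
      apply tendsto_const_nhds.congr'
      filter_upwards [self_mem_nhdsWithin] with t ht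
      exact ((hγf t ht).2).symm
    exact tendsto_nhds_unique h4 h5
  obtain ⟨hx1, hx2⟩ := zero_coords ζ hζ hfζ
  -- constants
  set κ : ℝ := Real.exp (-20) - Real.exp (-25) with hκ
  have hκ0 : 0 < κ := by
    rw [hκ]; have : Real.exp (-25) < Real.exp (-20) := Real.exp_lt_exp.mpr (by norm_num)
    linarith
  have hκ1 : κ ≤ 1 := by
    have h1 : Real.exp (-20) ≤ 1 := Real.exp_le_one_iff.mpr (by norm_num)
    have h2 := Real.exp_pos (-25)
    linarith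
  have hκ2 : κ ≤ Real.exp (-4) - Real.exp (-5) := by
    have h1 : 2 * Real.exp (-5) ≤ Real.exp (-4) := by
      have e : Real.exp (-4) = Real.exp (-5) * Real.exp 1 := by rw [← Real.exp_add]; norm_num
      have e2 : (2 : ℝ) ≤ Real.exp 1 := by
        have := Real.add_one_le_exp (1 : ℝ); linarith
      rw [e]; nlinarith [Real.exp_pos (-5)]
    have h2 : Real.exp (-20) ≤ Real.exp (-5) := Real.exp_le_exp.mpr (by norm_num)
    have h3 := Real.exp_pos (-25)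
    linarith
  have hγ0 : ‖γ 0‖ < 1 := by
    have := (hγf 0 ⟨le_refl _, by norm_num⟩).1
    rwa [mem_ball, dist_zero_right] at this
  -- choose k
  have hN := N_tendsto
  have hev1 : ∀ᶠ k in atTop, max (max (C' ^ 2 * 25 + 1) ((3 + C' ^ 2) * 25)) (max 100 (25 / (1 - ‖γ 0‖) + 1)) ≤ (NN k : ℝ) :=
    hN.eventually_ge_atTop _
  have hpow : Tendsto (fun k : ℕ => 10 * (1900 * C' * (1 / 2 : ℝ) ^ k) / κ ^ 2) atTop (nhds 0) := by
    have h1 : Tendsto (fun k : ℕ => (1 / 2 : ℝ) ^ k) atTop (nhds 0) :=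
      tendsto_pow_atTop_nhds_zero_of_lt_one (by norm_num) (by norm_num)
    have h2 := h1.const_mul (10 * (1900 * C') / κ ^ 2)
    rw [mul_zero] at h2
    refine h2.congr (fun k => ?_)
    ring
  have hev2 : ∀ᶠ k in atTop, 10 * (1900 * C' * (1 / 2 : ℝ) ^ k) / κ ^ 2 < Real.exp (-32) / 2 :=
    hpow.eventually_lt_const (by positivity)
  obtain ⟨k, hk1, hk2⟩ := (hev1.and hev2).exists
  set N : ℝ := (NN k : ℝ) with hNdef
  have hNpos : 0 < N := by rw [hNdef]; exact_mod_cast NN_pos k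
  have ha1 : C' ^ 2 * 25 + 1 ≤ N := (le_max_left _ _).trans ((le_max_left _ _).trans hk1)
  have ha2 : (3 + C' ^ 2) * 25 ≤ N := (le_max_right _ _).trans ((le_max_left _ _).trans hk1)
  have ha3 : 100 ≤ N := (le_max_left _ _).trans ((le_max_right _ _).trans hk1)
  have ha4 : 25 / (1 - ‖γ 0‖) + 1 ≤ N := (le_max_right _ _).trans ((le_max_right _ _).trans hk1)
  have h0pos : 0 < 1 - ‖γ 0‖ := by linarith
  have ha5 : ‖γ 0‖ < 1 - 25 / N := by
    have h1 : 25 / (1 - ‖γ 0‖) < N := by linarith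
    rw [div_lt_iff₀ h0pos] at h1
    have h2 : 25 / N < 1 - ‖γ 0‖ := by rw [div_lt_iff₀ hNpos]; linarith
    linarith
  -- points at height s/N
  have hpt : ∀ s : ℝ, 1 ≤ s → s ≤ 25 → ∃ t ∈ Set.Ico (0 : ℝ) 1, ‖γ t‖ = 1 - s / N := by
    intro s hs1 hs2
    have hnorm : Tendsto (fun t => ‖γ t‖) (nhdsWithin 1 (Set.Ico 0 1)) (nhds 1) := by
      have := (continuous_norm.tendsto ζ).comp hlim0
      rw [hζ] at this
      exact this
    have hs0 : 1 - s / N < 1 := by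
      have : 0 < s / N := by positivity
      linarith
    obtain ⟨t', ht'1, ht'2⟩ := ((hnorm.eventually_const_lt hs0).and self_mem_nhdsWithin).exists
    have hcont : ContinuousOn (fun t => ‖γ t‖) (Set.Icc 0 t') := by
      apply ContinuousOn.norm
      apply hγ.mono
      intro t ht; exact ⟨ht.1, lt_of_le_of_lt ht.2 ht'2.2⟩
    have himg := intermediate_value_Icc ht'2.1 hcont
    have hmem : 1 - s / N ∈ Set.Icc (‖γ 0‖) (‖γ t'‖) := by
      refine ⟨?_, ht'1.le⟩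
      have : s / N ≤ 25 / N := div_le_div_of_nonneg_right hs2 hNpos.le
      linarith
    obtain ⟨t, ht1, ht2⟩ := himg hmem
    exact ⟨t, ⟨ht1.1, lt_of_le_of_lt ht1.2 ht'2.2⟩, ht2⟩
  -- the three points
  set p := P (mm k) ζ with hp
  set q := Q (mm k) ζ with hq
  set A := Ff k ζ / (eta k : ℂ) with hA
  have hη := eta_pos k
  have hηc : (eta k : ℂ) ≠ 0 := by exact_mod_cast hη.ne'
  have hX : ∀ s : ℝ, 1 ≤ s → s ≤ 25 → ∃ X : ℂ, Real.exp (-(4 * s)) ≤ ‖X‖ ∧ ‖X‖ ≤ Real.exp (-s) ∧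
      ‖A + p * X + q * X ^ 2‖ ≤ 1900 * C' * (1 / 2) ^ k := by
    intro s hs1 hs2
    obtain ⟨t, ht, htn⟩ := hpt s hs1 hs2
    have hzζ : ‖ζ - γ t‖ ≤ C' * (s / N) := by
      refine (hCt t ht).trans (le_of_eq ?_)
      rw [htn]; ring
    have hCs : C' ^ 2 * s < N := by
      have : C' ^ 2 * s ≤ C' ^ 2 * 25 := mul_le_mul_of_nonneg_left hs2 (by positivity)
      linarith
    obtain ⟨l, hl1, hl2, hl3⟩ := key C' hC1 k s hs1 ζ (γ t) hζ (hγf t ht).2 htn hzζ hCs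
    refine ⟨l ^ (NN k), ?_⟩
    have hmod := modulus (NN k) (NN_pos k) s C' (by linarith) ‖l‖ (norm_nonneg l) hl1 hl2
      (by
        have h1 : (3 + C' ^ 2) * s ≤ (3 + C' ^ 2) * 25 :=
          mul_le_mul_of_nonneg_left hs2 (by positivity)
        linarith) (by linarith)
    rw [norm_pow]
    refine ⟨hmod.1, hmod.2, ?_⟩
    have e1 : A + p * l ^ (NN k) + q * (l ^ (NN k)) ^ 2 =
        (Ff k ζ + (eta k : ℂ) * (p * l ^ (NN k) + q * (l ^ (NN k)) ^ 2)) / (eta k : ℂ) := by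
      rw [hA]; field_simp; ring
    rw [e1, norm_div, Complex.norm_real, Real.norm_of_nonneg hη.le, div_le_iff₀ hη]
    refine hl3.trans ?_
    have h2 : 76 * C' * s * (1 / 2) ^ k ≤ 1900 * C' * (1 / 2) ^ k := by
      apply mul_le_mul_of_nonneg_right _ (by positivity)
      nlinarith
    calc eta k * (76 * C' * s * (1 / 2) ^ k) ≤ eta k * (1900 * C' * (1 / 2) ^ k) :=
          mul_le_mul_of_nonneg_left h2 hη.le
      _ = _ := by ring
  obtain ⟨X1, h1a, h1b, h1c⟩ := hX 1 (by norm_num) (by norm_num)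
  obtain ⟨X2, h2a, h2b, h2c⟩ := hX 5 (by norm_num) (by norm_num)
  obtain ⟨X3, h3a, h3b, h3c⟩ := hX 25 (by norm_num) (by norm_num)
  have e4 : Real.exp (-(4 * 1)) = Real.exp (-4) := by norm_num
  have e20 : Real.exp (-(4 * 5)) = Real.exp (-20) := by norm_num
  rw [e4] at h1a
  rw [e20] at h2a
  have hn12 : ‖X1‖ - ‖X2‖ ≤ ‖X1 - X2‖ := norm_sub_norm_le _ _
  have hn23 : ‖X2‖ - ‖X3‖ ≤ ‖X2 - X3‖ := norm_sub_norm_le _ _
  have hn13 : ‖X1‖ - ‖X3‖ ≤ ‖X1 - X3‖ := norm_sub_norm_le _ _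
  have h25 : Real.exp (-25) ≤ Real.exp (-5) := Real.exp_le_exp.mpr (by norm_num)
  have hX1 : ‖X1‖ ≤ 1 := h1b.trans (Real.exp_le_one_iff.mpr (by norm_num))
  have hX2 : ‖X2‖ ≤ 1 := h2b.trans (Real.exp_le_one_iff.mpr (by norm_num))
  obtain ⟨hp', hq'⟩ := eliminate A p q X1 X2 X3 (1900 * C' * (1 / 2) ^ k) κ hκ0 hκ1 h1c h2c h3c
    hX1 hX2 (by linarith) (by linarith) (by linarith)
  rcases P_or_Q_good (mm k) (mm_pos k) ζ hζ hx1 hx2 with h | h
  · rw [← hp] at h; linarith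
  · rw [← hq] at h; linarith

end Pool.Agent.BallZero
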